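import Mathlib

namespace Pool.Agent.Lib.MP_3614fc_al

/-- the discrete Heisenberg group -/
@[ext] structure Hs where
  x : ℤ
  y : ℤ
  z : ℤ

namespace Hs

instance : Mul Hs := ⟨fun a b => ⟨a.x + b.x, a.y + b.y, a.z + b.z + a.x * b.y⟩⟩
instance : One Hs := ⟨⟨0, 0, 0⟩⟩
instance : Inv Hs := ⟨fun a => ⟨-a.x, -a.y, -a.z + a.x * a.y⟩⟩

@[simp] lemma mul_x (a b : Hs) : (a * b).x = a.x + b.x := rfl
@[simp] lemma mul_y (a b : Hs) : (a * b).y = a.y + b.y := rfl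
@[simp] lemma mul_z (a b : Hs) : (a * b).z = a.z + b.z + a.x * b.y := rfl
@[simp] lemma one_x : (1 : Hs).x = 0 := rfl
@[simp] lemma one_y : (1 : Hs).y = 0 := rfl
@[simp] lemma one_z : (1 : Hs).z = 0 := rfl
@[simp] lemma inv_x (a : Hs) : a⁻¹.x = -a.x := rfl
@[simp] lemma inv_y (a : Hs) : a⁻¹.y = -a.y := rfl
@[simp] lemma inv_z (a : Hs) : a⁻¹.z = -a.z + a.x * a.y := rfl

instance : Group Hs where
  mul_assoc a b c := by ext <;> simp <;> ring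
  one_mul a := by ext <;> simp
  mul_one a := by ext <;> simp
  inv_mul_cancel a := by ext <;> simp

lemma zpow_straight (p : Hs) (hp : 2 * p.z = p.x * p.y) (m : ℤ) :
    p ^ m = ⟨m * p.x, m * p.y, m ^ 2 * p.z⟩ := by
  induction m using Int.induction_on with
  | zero => ext <;> simp
  | succ n ih =>
    rw [zpow_add_one, ih]
    ext <;> simp
    · ring
    · ring
    · linear_combination (-(n : ℤ)) * hp
  | pred n ih =>
    rw [zpow_sub_one, ih]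
    ext <;> simp
    · ring
    · ring
    · linear_combination (-(n : ℤ) - 1) * hp

/-- the projection to the abelianisation -/
def proj : Hs →* Multiplicative (ℤ × ℤ) where
  toFun a := Multiplicative.ofAdd (a.x, a.y)
  map_one' := rfl
  map_mul' _ _ := rfl

instance : Group.IsNilpotent Hs := by
  refine Subgroup.isNilpotent_of_ker_le_center proj ?_
  intro a ha
  rw [MonoidHom.mem_ker] at ha
  have h : (a.x, a.y) = (0, 0) := Multiplicative.ofAdd.injective ha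
  have hx : a.x = 0 := congrArg Prod.fst h
  have hy : a.y = 0 := congrArg Prod.snd h
  rw [Subgroup.mem_center_iff]
  intro g
  ext <;> simp [hx, hy, add_comm]

end Hs

open Hs

/-- the generating set of the Heisenberg group -/
def P (p : Hs) : Prop := |p.x| + |p.y| ≤ 3465 ∧ (p.x + p.y) % 2 = 1 ∧ 2 * p.z = p.x * p.y

lemma P.inv {p : Hs} (h : P p) : P p⁻¹ := by
  obtain ⟨h1, h2, h3⟩ := h
  refine ⟨by simpa using h1, by simp; omega, by simp; linear_combination -h3⟩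

lemma P_finite : {p | P p}.Finite := by
  have : {p | P p} ⊆ (fun t : ℤ × ℤ => (⟨t.1, t.2, t.1 * t.2 / 2⟩ : Hs)) ''
      (Set.Icc (-3465) 3465 ×ˢ Set.Icc (-3465) 3465) := by
    rintro p ⟨h1, -, h3⟩
    have a1 := abs_nonneg p.x
    have a2 := abs_nonneg p.y
    refine ⟨(p.x, p.y), ⟨abs_le.1 (by linarith), abs_le.1 (by linarith)⟩, ?_⟩
    ext <;> simp
    omega
  exact (((Set.finite_Icc _ _).prod (Set.finite_Icc _ _)).image _).subset this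

/-- central elements -/
def cz (δ : ℤ) : Hs := ⟨0, 0, δ⟩

/-- `g` is a product of powers of the listed elements, in order, with total exponent `≤ n` -/
def PW : List Hs → Hs → ℤ → Prop
  | [], g, n => g = 1 ∧ 0 ≤ n
  | p :: cs, g, n => ∃ (m : ℤ) (g' : Hs), g = p ^ m * g' ∧ PW cs g' (n - |m|)

lemma PW.mono : ∀ {cs : List Hs} {g : Hs} {n n' : ℤ}, PW cs g n → n ≤ n' → PW cs g n'
  | [], _, _, _, h, hn => ⟨h.1, h.2.trans hn⟩
  | _ :: _, _, _, _, ⟨m, g', h1, h2⟩, hn => ⟨m, g', h1, h2.mono (by linarith)⟩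

lemma PW.nonneg : ∀ {cs : List Hs} {g : Hs} {n : ℤ}, PW cs g n → 0 ≤ n
  | [], _, _, h => h.2
  | _ :: _, _, _, ⟨m, _, _, h2⟩ => by have := h2.nonneg; have := abs_nonneg m; linarith

lemma PW.map (θ : Hs →* Hs) : ∀ {cs : List Hs} {g : Hs} {n : ℤ}, PW cs g n →
    PW (cs.map θ) (θ g) n
  | [], _, _, h => ⟨by rw [h.1, map_one], h.2⟩
  | _ :: _, _, _, ⟨m, g', h1, h2⟩ => ⟨m, θ g', by rw [h1, map_mul, map_zpow], h2.map θ⟩

lemma PW.drop_one {cs : List Hs} {g : Hs} {n : ℤ} (h : PW (1 :: cs) g n) : PW cs g n := by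
  obtain ⟨m, g', h1, h2⟩ := h
  rw [one_zpow, one_mul] at h1
  rw [h1]
  exact h2.mono (by have := abs_nonneg m; linarith)

/-- every word in the generators for `g` has length at least `ℓ` -/
def LBP (g : Hs) (ℓ : ℤ) : Prop := ∀ l : List Hs, (∀ p ∈ l, P p) → l.prod = g → ℓ ≤ l.length

lemma isoper (l : List Hs) (hl : ∀ p ∈ l, P p) :
    ∃ R L U V : ℤ, 0 ≤ R ∧ l.prod.x ≤ R ∧ 0 ≤ L ∧ -l.prod.x ≤ L ∧ 0 ≤ U ∧ 0 ≤ V ∧
      U - V = l.prod.y ∧ l.prod.z ≤ R * U + L * V ∧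
      2 * (R + L) - |l.prod.x| + U + V ≤ 3465 * l.length ∧
      (l.prod.x + l.prod.y - l.length) % 2 = 0 := by
  induction l using List.reverseRecOn with
  | nil => exact ⟨0, 0, 0, 0, by simp⟩
  | append_singleton l p ih =>
    obtain ⟨R, L, U, V, h1, h2, h3, h4, h5, h6, h7, h8, h9, h10⟩ :=
      ih (fun q hq => hl q (List.mem_append_left _ hq))
    obtain ⟨p1, p2, p3⟩ := hl p (by simp)
    simp only [List.prod_append, List.prod_cons, List.prod_nil, mul_one, mul_x, mul_y, mul_z,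
      List.length_append, List.length_cons, List.length_nil]
    generalize l.prod.x = x at *
    generalize l.prod.y = y at *
    generalize l.prod.z = z at *
    obtain ⟨R', r1, r2, r3⟩ : ∃ R', R ≤ R' ∧ x + p.x ≤ R' ∧ (R' = R ∨ R' = x + p.x) :=
      ⟨max R (x + p.x), le_max_left _ _, le_max_right _ _, max_choice _ _⟩
    obtain ⟨L', l1, l2, l3⟩ : ∃ L', L ≤ L' ∧ -(x + p.x) ≤ L' ∧ (L' = L ∨ L' = -(x + p.x)) :=
      ⟨max L (-(x + p.x)), le_max_left _ _, le_max_right _ _, max_choice _ _⟩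
    have key : 2 * (R' + L') - |x + p.x| ≤ 2 * (R + L) - |x| + |p.x| := by
      rcases abs_cases x with a | a <;> rcases abs_cases p.x with b | b <;>
        rcases abs_cases (x + p.x) with c | c <;> omega
    have m1 : R * U ≤ R' * U := mul_le_mul_of_nonneg_right r1 h5
    have m2 : L * V ≤ L' * V := mul_le_mul_of_nonneg_right l1 h6
    rcases le_total 0 p.y with hy | hy
    · refine ⟨R', L', U + p.y, V, by omega, r2, by omega, l2, by omega, h6, by omega, ?_, ?_,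
        by push_cast; omega⟩
      · have : 0 ≤ (2 * R' - (2 * x + p.x)) * p.y := mul_nonneg (by omega) hy
        nlinarith
      · rw [abs_of_nonneg hy] at p1
        push_cast
        omega
    · refine ⟨R', L', U, V - p.y, by omega, r2, by omega, l2, h5, by omega, by omega, ?_, ?_,
        by push_cast; omega⟩
      · have : 0 ≤ (2 * L' + (2 * x + p.x)) * (-p.y) := mul_nonneg (by omega) (by omega)
        nlinarith
      · rw [abs_of_nonpos hy] at p1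
        push_cast
        omega

/-- elements of the coarse sublattice -/
def co (X Y z : ℤ) : Hs := ⟨3465 * X, 3465 * Y, 3465 ^ 2 * z⟩

lemma lbp_of (X Y z ℓ : ℤ) (hX : 0 ≤ X) (hY : 0 ≤ Y)
    (H : ∀ A B σ : ℤ, 3465 * X ≤ A → 3465 * Y ≤ B → A + B ≤ 3465 * σ → 3465 ^ 2 * z ≤ A * B →
      ℓ ≤ 2 * σ - X - Y) : LBP (co X Y z) ℓ := by
  intro l hl hg
  obtain ⟨R, L, U, V, h1, h2, h3, h4, h5, h6, h7, h8, h9, h10⟩ := isoper l hl
  rw [hg] at h2 h4 h7 h8 h9 h10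
  simp only [co] at h2 h4 h7 h8 h9 h10
  rw [abs_of_nonneg (by omega)] at h9
  obtain ⟨σ, hσ⟩ : ∃ σ : ℤ, (l.length : ℤ) = 2 * σ - X - Y :=
    ⟨((l.length : ℤ) + X + Y) / 2, by omega⟩
  rw [hσ]
  refine H (R + L) U σ (by omega) (by omega) (by omega) ?_
  have : L * V ≤ L * U := mul_le_mul_of_nonneg_left (by omega) h3
  nlinarith

/-- the horizontal long generator -/
def ga : Hs := ⟨3465, 0, 0⟩
/-- the vertical long generator -/
def ge : Hs := ⟨0, 3465, 0⟩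
/-- the generator of slope `2 τ` -/
def gw (τ : ℤ) : Hs := ⟨3465 / (1 + 2 * τ), 2 * τ * (3465 / (1 + 2 * τ)), τ * (3465 / (1 + 2 * τ)) ^ 2⟩
/-- optional slot -/
def opt (b : Bool) (p : Hs) : Hs := if b then p else 1

/-- admissible weights -/
def Wt (c₁ c₂ c₃ : ℤ) : Prop :=
  (c₁ = 1 ∧ c₂ = 1 ∧ c₃ = 3) ∨ (c₁ = 1 ∧ c₂ = 3 ∧ c₃ = 1) ∨ (c₁ = 3 ∧ c₂ = 1 ∧ c₃ = 1)

/-- the eight-slot pattern -/
def pat (b₁ b₂ b₆ b₈ : Bool) (c₁ c₂ : ℤ) : List Hs :=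
  [opt b₁ ga, opt b₂ ge, ga, gw c₁, gw (c₁ + c₂), opt b₆ (gw 5), ge, opt b₈ ga]

lemma pat_mem (b₁ b₂ b₆ b₈ : Bool) {c₁ c₂ c₃ : ℤ} (hc : Wt c₁ c₂ c₃) :
    ∀ p ∈ pat b₁ b₂ b₆ b₈ c₁ c₂, p = 1 ∨ P p := by
  have ho : ∀ b p, P p → (opt b p = 1 ∨ P (opt b p)) := by
    intro b p hp
    cases b
    · left; rfl
    · right; exact hp
  have ha : P ga := by simp [P, ga]
  have he : P ge := by simp [P, ge]
  have h1 : P (gw 1) := by norm_num [P, gw]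
  have h2 : P (gw 2) := by norm_num [P, gw]
  have h3 : P (gw 3) := by norm_num [P, gw]
  have h4 : P (gw 4) := by norm_num [P, gw]
  have h5 : P (gw 5) := by norm_num [P, gw]
  intro p hp
  simp only [pat, List.mem_cons, List.not_mem_nil, or_false] at hp
  rcases hc with ⟨rfl, rfl, rfl⟩ | ⟨rfl, rfl, rfl⟩ | ⟨rfl, rfl, rfl⟩ <;>
  rcases hp with rfl | rfl | rfl | rfl | rfl | rfl | rfl | rfl <;>
  first
    | exact ho _ _ ha
    | exact ho _ _ he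
    | exact ho _ _ h5
    | exact Or.inr ha
    | exact Or.inr he
    | exact Or.inr h1
    | exact Or.inr h2
    | exact Or.inr h3
    | exact Or.inr h4

lemma ga_zpow (m : ℤ) : ga ^ m = ⟨3465 * m, 0, 0⟩ := by
  rw [zpow_straight _ (by simp [ga])]; ext <;> simp [ga, mul_comm]
lemma ge_zpow (m : ℤ) : ge ^ m = ⟨0, 3465 * m, 0⟩ := by
  rw [zpow_straight _ (by simp [ge])]; ext <;> simp [ge, mul_comm]
lemma gw_zpow (τ m : ℤ) : gw τ ^ m = ⟨3465 / (1 + 2 * τ) * m, 2 * τ * (3465 / (1 + 2 * τ) * m),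
    τ * (3465 / (1 + 2 * τ) * m) ^ 2⟩ := by
  rw [zpow_straight _ (by simp only [gw]; ring)]
  ext <;> simp only [gw] <;> ring

lemma opt_zpow (b : Bool) (p : Hs) (m : ℤ) :
    ∃ m' : ℤ, opt b p ^ m = p ^ m' ∧ |m'| ≤ |m| ∧ (b = false → m' = 0) := by
  cases b
  · exact ⟨0, by simp [opt], by simp, fun _ => rfl⟩
  · exact ⟨m, rfl, le_rfl, by simp⟩

lemma opt_zpow' (b : Bool) (p : Hs) (m : ℤ) (h : b = false → m = 0) : opt b p ^ m = p ^ m := by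
  cases b
  · rw [h rfl]; simp
  · rfl

lemma bad_word {b₁ b₂ b₆ b₈ : Bool} {c₁ c₂ c₃ : ℤ} (hc : Wt c₁ c₂ c₃) {X Y z n : ℤ}
    (h : PW (pat b₁ b₂ b₆ b₈ c₁ c₂) (co X Y z) n) :
    ∃ s j A N₁ N₂ N₃ : ℤ, (b₁ = false → s = 0) ∧ (b₂ = false → j = 0) ∧ (b₆ = false → N₃ = 0) ∧
      (b₈ = false → A = X) ∧
      3465 ^ 2 * (A * (Y + j) - s * j - z) = c₁ * N₁ ^ 2 + c₂ * N₂ ^ 2 + c₃ * N₃ ^ 2 ∧
      |s| + |j| + |A - s| + |Y + j| + |X - A| ≤ n := by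
  obtain ⟨m₁, g₁, e₁, m₂, g₂, rfl, m₃, g₃, rfl, m₄, g₄, rfl, m₅, g₅, rfl, m₆, g₆, rfl,
    m₇, g₇, rfl, m₈, g₈, rfl, rfl, hn⟩ := h
  obtain ⟨k₁, f₁, a₁, z₁⟩ := opt_zpow b₁ ga m₁
  obtain ⟨k₂, f₂, a₂, z₂⟩ := opt_zpow b₂ ge m₂
  obtain ⟨k₆, f₆, a₆, z₆⟩ := opt_zpow b₆ (gw 5) m₆
  obtain ⟨k₈, f₈, a₈, z₈⟩ := opt_zpow b₈ ga m₈
  rw [f₁, f₂, f₆, f₈] at e₁
  simp only [ga_zpow, ge_zpow, gw_zpow] at e₁
  have ex := congrArg Hs.x e₁
  have ey := congrArg Hs.y e₁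
  have ez := congrArg Hs.z e₁
  simp only [co, mul_x, mul_y, mul_z, one_x, one_y, one_z] at ex ey ez
  have b3 := le_abs_self m₃
  have b3' := neg_abs_le m₃
  have b4 := le_abs_self m₄
  have b4' := neg_abs_le m₄
  have b5 := le_abs_self m₅
  have b5' := neg_abs_le m₅
  have b6 := le_abs_self k₆
  have b6' := neg_abs_le k₆
  have b7 := le_abs_self m₇
  have b7' := neg_abs_le m₇
  refine ⟨k₁, -k₂, X - k₈, 3465 / (1 + 2 * c₁) * m₄ + 3465 / (1 + 2 * (c₁ + c₂)) * m₅ + 315 * k₆,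
    3465 / (1 + 2 * (c₁ + c₂)) * m₅ + 315 * k₆, 315 * k₆, z₁, fun h => by rw [z₂ h]; rfl,
    fun h => by rw [z₆ h]; rfl, fun h => by rw [z₈ h]; ring, ?_, ?_⟩
  · have hc3 : c₃ = 5 - c₁ - c₂ := by
      rcases hc with ⟨rfl, rfl, rfl⟩ | ⟨rfl, rfl, rfl⟩ | ⟨rfl, rfl, rfl⟩ <;> rfl
    have h315 : (3465 : ℤ) / (1 + 2 * 5) = 315 := by norm_num
    rw [h315] at ex ey ez
    generalize (3465 : ℤ) / (1 + 2 * c₁) = ν₁ at *
    generalize (3465 : ℤ) / (1 + 2 * (c₁ + c₂)) = ν₂ at *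
    rw [hc3]
    linear_combination (3465 * (Y - k₂)) * ex +
      (3465 * k₁ + 3465 * m₃ + ν₁ * m₄ + ν₂ * m₅ + 315 * k₆) * ey - ez
  · rw [abs_neg, show X - (X - k₈) = k₈ by ring]
    rcases hc with ⟨rfl, rfl, rfl⟩ | ⟨rfl, rfl, rfl⟩ | ⟨rfl, rfl, rfl⟩ <;>
    norm_num at ex ey <;>
    rcases abs_cases (X - k₈ - k₁) with u | u <;> rcases abs_cases (Y + -k₂) with v | v <;> omega

lemma good_word {b₁ b₂ b₆ b₈ : Bool} {c₁ c₂ c₃ : ℤ} (hc : Wt c₁ c₂ c₃) {X Y z : ℤ}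
    (s j A N₁ N₂ N₃ : ℤ) (h₁ : b₁ = false → s = 0) (h₂ : b₂ = false → j = 0)
    (h₆ : b₆ = false → N₃ = 0) (h₈ : b₈ = false → A = X)
    (n₃ : 0 ≤ N₃) (n₂ : N₃ ≤ N₂) (n₁ : N₂ ≤ N₁) (hA : N₁ ≤ A - s)
    (hB : 2 * (c₁ * N₁ + c₂ * N₂ + c₃ * N₃) ≤ Y + j)
    (hz : z = A * (Y + j) - s * j - (c₁ * N₁ ^ 2 + c₂ * N₂ ^ 2 + c₃ * N₃ ^ 2)) :
    PW (pat b₁ b₂ b₆ b₈ c₁ c₂) (co X Y z) (|s| + |j| + (A - s) + (Y + j) + |X - A|) := by
  refine ⟨s, _, ?_, -j, _, rfl, A - s - N₁, _, rfl, (1 + 2 * c₁) * (N₁ - N₂), _, rfl,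
    (1 + 2 * (c₁ + c₂)) * (N₂ - N₃), _, rfl, 11 * N₃, _, rfl,
    Y + j - 2 * (c₁ * N₁ + c₂ * N₂ + c₃ * N₃), _, rfl, X - A, 1, rfl, rfl, ?_⟩
  · rw [opt_zpow' _ _ _ h₁, opt_zpow' _ _ _ (fun h => by rw [h₂ h]; rfl),
      opt_zpow' _ _ _ (fun h => by rw [h₆ h]; rfl), opt_zpow' _ _ _ (fun h => by rw [h₈ h]; ring)]
    simp only [ga_zpow, ge_zpow, gw_zpow]
    subst hz
    rcases hc with ⟨rfl, rfl, rfl⟩ | ⟨rfl, rfl, rfl⟩ | ⟨rfl, rfl, rfl⟩ <;>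
    ext <;> simp only [co, mul_x, mul_y, mul_z, one_x, one_y, one_z] <;> norm_num <;> ring
  · rw [abs_neg, abs_of_nonneg (a := A - s - N₁) (by omega),
      abs_of_nonneg (a := Y + j - 2 * (c₁ * N₁ + c₂ * N₂ + c₃ * N₃)) (by omega),
      abs_of_nonneg (a := 11 * N₃) (by omega)]
    rcases hc with ⟨rfl, rfl, rfl⟩ | ⟨rfl, rfl, rfl⟩ | ⟨rfl, rfl, rfl⟩ <;>
    rw [abs_of_nonneg (a := _ * (N₁ - N₂)) (by omega), abs_of_nonneg (a := _ * (N₂ - N₃)) (by omega)] <;>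
    omega

end Pool.Agent.Lib.MP_3614fc_al
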