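import Mathlib

open MeasureTheory

namespace Pool.Agent.Lib.MP_3614fc_al

lemma minkowski3 (A : Matrix (Fin 3) (Fin 3) ℝ) (hA : A.det ≠ 0) (ρ : ℝ) (hρ : 0 < ρ)
    (h : 8 * |A.det| < ρ ^ 3 * (Real.pi * 4 / 3)) :
    ∃ v : Fin 3 → ℤ, v ≠ 0 ∧ ∑ i, (A.mulVec (fun j => (v j : ℝ)) i) ^ 2 < ρ ^ 2 := by
  classical
  let B : Set (Fin 3 → ℝ) := (WithLp.toLp 2) ⁻¹' Metric.ball (0 : EuclideanSpace ℝ (Fin 3)) ρ
  have hBvol : volume B = ENNReal.ofReal ρ ^ 3 * ENNReal.ofReal (Real.pi * 4 / 3) := by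
    rw [(PiLp.volume_preserving_toLp (Fin 3)).measure_preimage
      (measurableSet_ball.nullMeasurableSet), EuclideanSpace.volume_ball_fin_three]
  have hBmem : ∀ x : Fin 3 → ℝ, x ∈ B ↔ ∑ i, x i ^ 2 < ρ ^ 2 := by
    intro x
    simp only [B, Set.mem_preimage, Metric.mem_ball, dist_zero_right, EuclideanSpace.norm_eq,
      Real.norm_eq_abs, sq_abs]
    rw [Real.sqrt_lt' hρ]
  let f : (Fin 3 → ℝ) →ₗ[ℝ] (Fin 3 → ℝ) := Matrix.toLin' A
  have hf : LinearMap.det f = A.det := by simp [f]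
  let s : Set (Fin 3 → ℝ) := f ⁻¹' B
  have hs : volume s = ENNReal.ofReal |(A.det)⁻¹| * volume B := by
    rw [← hf]
    exact Measure.addHaar_preimage_linearMap volume (by rwa [hf]) B
  have hBconv : Convex ℝ B := by
    have : B = (WithLp.linearEquiv 2 ℝ (Fin 3 → ℝ)).symm.toLinearMap ⁻¹'
      Metric.ball (0 : EuclideanSpace ℝ (Fin 3)) ρ := rfl
    rw [this]
    exact (convex_ball _ _).linear_preimage _
  have hconv : Convex ℝ s := hBconv.linear_preimage f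
  have hsymm : ∀ x ∈ s, -x ∈ s := by
    intro x hx
    simp only [s, Set.mem_preimage, hBmem, map_neg, Pi.neg_apply, even_two, Even.neg_pow] at hx ⊢
    exact hx
  have fund := ZSpan.isAddFundamentalDomain' (Pi.basisFun ℝ (Fin 3)) volume
  have hcount : Countable (Submodule.span ℤ (Set.range (Pi.basisFun ℝ (Fin 3)))).toAddSubgroup := by
    change Countable (Submodule.span ℤ (Set.range (Pi.basisFun ℝ (Fin 3))))
    infer_instance
  have hvol : volume (ZSpan.fundamentalDomain (Pi.basisFun ℝ (Fin 3))) *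
      2 ^ Module.finrank ℝ (Fin 3 → ℝ) < volume s := by
    have hF : volume (ZSpan.fundamentalDomain (Pi.basisFun ℝ (Fin 3))) = 1 := by
      rw [ZSpan.fundamentalDomain_pi_basisFun, volume_pi, Measure.pi_pi]
      simp
    rw [hF, one_mul, hs, hBvol, Module.finrank_fin_fun, ← ENNReal.ofReal_pow hρ.le,
      ← ENNReal.ofReal_mul (by positivity), ← ENNReal.ofReal_mul (by positivity)]
    have h8 : (2 : ENNReal) ^ 3 = ENNReal.ofReal 8 := by
      rw [show (8 : ℝ) = ((8 : ℕ) : ℝ) by norm_num, ENNReal.ofReal_natCast]; norm_num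
    rw [h8, ENNReal.ofReal_lt_ofReal_iff (by positivity), abs_inv, lt_inv_mul_iff₀ (abs_pos.2 hA)]
    linarith
  obtain ⟨x, hx0, hx⟩ :=
    exists_ne_zero_mem_lattice_of_measure_mul_two_pow_lt_measure fund hsymm hconv hvol
  have hint : ∀ i, ∃ n : ℤ, (n : ℝ) = (x : Fin 3 → ℝ) i := by
    intro i
    have := (Module.Basis.mem_span_iff_repr_mem ℤ (Pi.basisFun ℝ (Fin 3)) (x : Fin 3 → ℝ)).1 x.2 i
    obtain ⟨n, hn⟩ := this
    exact ⟨n, by simpa using hn⟩
  choose v hv using hint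
  have hxv : (x : Fin 3 → ℝ) = fun j => (v j : ℝ) := funext fun j => (hv j).symm
  refine ⟨v, ?_, ?_⟩
  · rintro rfl
    apply hx0
    apply Subtype.ext
    rw [hxv]
    funext j
    simp
  · have := (hBmem _).1 hx
    rw [hxv] at this
    simpa [f] using this

/-- the lattice point coming from the convex body theorem -/
lemma exists_small (m q b β : ℤ) (hm : 0 < m) (hq : 0 < q) :
    ∃ x y k : ℤ, ¬ (x = 0 ∧ y = 0 ∧ k = 0) ∧
      12 * q * (-x + β * y + m * k) ^ 2 + (2 * q * x + b * y) ^ 2 + 3 * m * y ^ 2 < 12 * q * m := by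
  have hm' : (0 : ℝ) < m := by exact_mod_cast hm
  have hq' : (0 : ℝ) < q := by exact_mod_cast hq
  obtain ⟨a, ha0, ha⟩ : ∃ a : ℝ, 0 < a ∧ a ^ 2 = 12 * q :=
    ⟨Real.sqrt (12 * q), by positivity, Real.sq_sqrt (by positivity)⟩
  obtain ⟨c, hc0, hc⟩ : ∃ c : ℝ, 0 < c ∧ c ^ 2 = 3 * m :=
    ⟨Real.sqrt (3 * m), by positivity, Real.sq_sqrt (by positivity)⟩
  obtain ⟨t, ht0, ht⟩ : ∃ t : ℝ, 0 < t ∧ t ^ 2 = 3 :=
    ⟨Real.sqrt 3, by positivity, Real.sq_sqrt (by positivity)⟩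
  have ht1 : 1 < t := by nlinarith
  let A : Matrix (Fin 3) (Fin 3) ℝ := !![-a, a * β, a * m; 2 * q, b, 0; 0, c, 0]
  have hdet : A.det = 2 * q * m * a * c := by
    simp [A, Matrix.det_fin_three]; left; ring
  have hρ : 0 < a * c / t := by positivity
  have hρ2 : (a * c / t) ^ 2 = 12 * q * m := by
    rw [div_pow, mul_pow, ha, hc, ht]; ring
  obtain ⟨v, hv0, hv⟩ := minkowski3 A (by rw [hdet]; positivity) (a * c / t) hρ (by
    rw [hdet, abs_of_pos (by positivity)]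
    have e : (a * c / t) ^ 3 = 12 * q * m * (a * c / t) := by rw [← hρ2]; ring
    rw [e]
    have hpi := Real.pi_gt_three
    have e2 : 12 * q * m * (a * c / t) * (Real.pi * 4 / 3) = (q * m * a * c) * (16 * Real.pi / t) := by
      field_simp; ring
    rw [e2]
    have h3 : 16 < 16 * Real.pi / t := by
      rw [lt_div_iff₀ ht0]; nlinarith
    have h4 : 0 < (q : ℝ) * m * a * c := by positivity
    nlinarith)
  refine ⟨v 0, v 1, v 2, ?_, ?_⟩
  · rintro ⟨h0, h1, h2⟩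
    apply hv0
    funext i
    fin_cases i <;> simp [h0, h1, h2]
  · rw [hρ2] at hv
    simp only [A, Fin.sum_univ_three, Matrix.mulVec, dotProduct, Matrix.of_apply, Matrix.cons_val',
      Matrix.cons_val_zero, Matrix.cons_val_one, Matrix.cons_val_fin_one, Matrix.cons_val] at hv
    have e : (12 * q * (-(v 0 : ℝ) + β * v 1 + m * v 2) ^ 2 + (2 * q * v 0 + b * v 1) ^ 2
        + 3 * m * (v 1 : ℝ) ^ 2 : ℝ) = (-a * v 0 + a * β * v 1 + a * m * v 2) ^ 2 +
          (2 * q * v 0 + b * v 1 + 0 * v 2) ^ 2 + (0 * v 0 + c * v 1 + 0 * v 2) ^ 2 := by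
      rw [← ha, ← hc]; ring
    have : (12 * q * (-(v 0 : ℝ) + β * v 1 + m * v 2) ^ 2 + (2 * q * v 0 + b * v 1) ^ 2
        + 3 * m * (v 1 : ℝ) ^ 2 : ℝ) < 12 * q * m := by rw [e]; exact hv
    exact_mod_cast this

/-- an auxiliary prime -/
lemma exists_prime_aux (m : ℕ) (hm : m % 12 = 1) :
    ∃ q : ℕ, q.Prime ∧ q % 12 = 1 ∧ (m : ℤ) ∣ q + 3 ∧ ∃ b h : ℤ, b ^ 2 + 3 * m = 4 * q * h := by
  have hm0 : 0 < m := by omega
  -- a residue that is 1 mod 12 and -3 mod m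
  obtain ⟨t, ht⟩ : ∃ t : ℕ, m = 12 * t + 1 := ⟨m / 12, by omega⟩
  have hcop : IsCoprime (4 * (m : ℤ) - 3) ((12 * m : ℕ) : ℤ) := by
    push_cast
    refine IsCoprime.mul_right ?_ ?_
    · exact ⟨1, -4 * t, by rw [ht]; push_cast; ring⟩
    · exact ⟨4 * t, 1 - 16 * t, by rw [ht]; push_cast; ring⟩
  obtain ⟨q, -, hq, hqm⟩ := Nat.forall_exists_prime_gt_and_zmodEq 0 (q := 12 * m) (by omega) hcop
  obtain ⟨u, hu⟩ := hqm.dvd
  push_cast at hu
  have hq12 : q % 12 = 1 := by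
    have : (q : ℤ) = 12 * (4 * t - m * u) + 1 := by
      have h1 : (m : ℤ) = 12 * t + 1 := by exact_mod_cast ht
      linear_combination -hu + 4 * h1
    omega
  have hdiv : (m : ℤ) ∣ q + 3 := ⟨4 - 12 * u, by linear_combination -hu⟩
  refine ⟨q, hq, hq12, hdiv, ?_⟩
  have : Fact q.Prime := ⟨hq⟩
  have hmodd : Odd m := by rw [Nat.odd_iff]; omega
  have hqodd : Odd q := by rw [Nat.odd_iff]; omega
  have three : ∀ n : ℕ, n % 12 = 1 → jacobiSym (-3) n = 1 := by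
    intro n hn
    have hodd : Odd n := by rw [Nat.odd_iff]; omega
    rw [jacobiSym.mod_right (-3) hodd]
    have : n % (4 * (-3 : ℤ).natAbs) = 1 := hn
    rw [this, jacobiSym.one_right]
  have hJ : jacobiSym (-3 * m) q = 1 := by
    rw [jacobiSym.mul_left, three q hq12, one_mul,
      jacobiSym.quadratic_reciprocity_one_mod_four' hmodd (by omega)]
    rw [jacobiSym.mod_left' (a₂ := -3), three m hm]
    exact (Int.emod_emod_of_dvd _ (dvd_refl _)).symm.trans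
      ((Int.emod_emod_of_dvd _ (dvd_refl _)).trans (Int.modEq_iff_dvd.2 (by
        obtain ⟨c, hc⟩ := hdiv
        exact ⟨-c, by linear_combination -hc⟩)))
  obtain ⟨r, hr⟩ := ZMod.isSquare_of_jacobiSym_eq_one hJ
  obtain ⟨b₀, rfl⟩ := ZMod.intCast_surjective r
  have hb₀ : (q : ℤ) ∣ b₀ ^ 2 + 3 * m := by
    rw [← ZMod.intCast_zmod_eq_zero_iff_dvd]
    push_cast at hr ⊢
    linear_combination -hr
  obtain ⟨b, hbodd, hb⟩ : ∃ b : ℤ, Odd b ∧ (q : ℤ) ∣ b ^ 2 + 3 * m := by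
    rcases Int.even_or_odd b₀ with h | h
    · refine ⟨b₀ + q, h.add_odd (by exact_mod_cast hqodd), ?_⟩
      obtain ⟨c, hc⟩ := hb₀
      exact ⟨c + 2 * b₀ + q, by linear_combination hc⟩
    · exact ⟨b₀, h, hb₀⟩
  have h4 : (4 : ℤ) ∣ b ^ 2 + 3 * m := by
    obtain ⟨k, rfl⟩ := hbodd
    exact ⟨k ^ 2 + k + 9 * t + 1, by rw [ht]; push_cast; ring⟩
  have hc4 : IsCoprime (4 : ℤ) q := by
    obtain ⟨k, hk⟩ : ∃ k : ℕ, q = 4 * k + 1 := ⟨q / 4, by omega⟩
    exact ⟨-k, 1, by rw [hk]; push_cast; ring⟩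
  obtain ⟨h, hh⟩ := hc4.mul_dvd h4 hb
  exact ⟨b, h, hh⟩

lemma aniso (p : ℕ) (hp : p.Prime) (h3 : p % 4 = 3) (u s y : ℤ) (hu : ¬ (p : ℤ) ∣ u)
    (h : (p : ℤ) ∣ s ^ 2 + u ^ 2 * y ^ 2) : (p : ℤ) ∣ s ∧ (p : ℤ) ∣ y := by
  have : Fact p.Prime := ⟨hp⟩
  have hz : ((s : ZMod p)) ^ 2 = -((u : ZMod p) * y) ^ 2 := by
    rw [← ZMod.intCast_zmod_eq_zero_iff_dvd] at h
    push_cast at h
    linear_combination h
  have hu' : (u : ZMod p) ≠ 0 := by rwa [Ne, ZMod.intCast_zmod_eq_zero_iff_dvd]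
  have hy : (y : ZMod p) = 0 := by
    by_contra hy
    exact ZMod.mod_four_ne_three_of_sq_eq_neg_sq' (mul_ne_zero hu' hy) hz h3
  have hs : (s : ZMod p) = 0 := by
    rw [hy] at hz
    simpa using hz
  exact ⟨(ZMod.intCast_zmod_eq_zero_iff_dvd _ _).1 hs, (ZMod.intCast_zmod_eq_zero_iff_dvd _ _).1 hy⟩

lemma descent (p : ℕ) (hp : p.Prime) (h3 : p % 4 = 3) (c u e b : ℤ) (hu : ¬ (p : ℤ) ∣ u)
    (hcu : (p : ℤ) ∣ c - u ^ 2) (he : ¬ (p : ℤ) ∣ e) (hb : ¬ (p : ℤ) ∣ b) :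
    ∀ a : ℕ, 0 < a → ∀ s y : ℤ, e * a ^ 2 * (p * b) ≠ s ^ 2 + c * y ^ 2 := by
  have hpZ : Prime (p : ℤ) := Nat.prime_iff_prime_int.1 hp
  intro a
  induction a using Nat.strong_induction_on with
  | _ a ih =>
    intro ha s y h
    obtain ⟨w, hw⟩ := hcu
    have h1 : (p : ℤ) ∣ s ^ 2 + u ^ 2 * y ^ 2 :=
      ⟨e * a ^ 2 * b - w * y ^ 2, by linear_combination -h - y ^ 2 * hw⟩
    obtain ⟨⟨s', rfl⟩, ⟨y', rfl⟩⟩ := aniso p hp h3 u s y hu h1
    have hp0 : (p : ℤ) ≠ 0 := hpZ.ne_zero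
    have h2 : e * a ^ 2 * b = p * (s' ^ 2 + c * y' ^ 2) := by
      apply mul_left_cancel₀ hp0
      linear_combination h
    have h4 : (p : ℤ) ∣ a := by
      have : (p : ℤ) ∣ e * a ^ 2 * b := ⟨_, h2⟩
      rcases hpZ.dvd_or_dvd this with h5 | h5
      · rcases hpZ.dvd_or_dvd h5 with h6 | h6
        · exact absurd h6 he
        · exact hpZ.dvd_of_dvd_pow h6
      · exact absurd h5 hb
    obtain ⟨a', rfl⟩ := Int.natCast_dvd_natCast.1 h4
    have ha' : 0 < a' := Nat.pos_of_mul_pos_left ha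
    refine ih a' (by have := hp.two_le; nlinarith) ha' s' y' ?_
    apply mul_left_cancel₀ hp0
    push_cast at h2
    linear_combination h2

theorem rep_squarefree (m : ℕ) (hm : m % 12 = 1) (hsq : Squarefree m) :
    ∃ x y w : ℤ, (m : ℤ) = x ^ 2 + y ^ 2 + 3 * w ^ 2 := by
  obtain ⟨q, hq, hq12, hdiv, b, h, hbh⟩ := exists_prime_aux m hm
  have hm0 : (0 : ℤ) < m := by exact_mod_cast (by omega : 0 < m)
  have hq0 : (0 : ℤ) < q := by exact_mod_cast hq.pos
  obtain ⟨t, ht⟩ : ∃ t : ℤ, (m : ℤ) = 12 * t + 1 := ⟨(m / 12 : ℕ), by omega⟩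
  obtain ⟨r, hr⟩ : ∃ r : ℤ, (q : ℤ) = 12 * r + 1 := ⟨(q / 12 : ℕ), by omega⟩
  obtain ⟨c, hc⟩ := hdiv
  -- 6 * (-2 t) = 1 mod m
  obtain ⟨x, y, k, hne, hlt⟩ := exists_small m q b (-2 * t * b) hm0 hq0
  obtain ⟨R, hR⟩ : ∃ R, R = -x + -2 * t * b * y + m * k := ⟨_, rfl⟩
  obtain ⟨s, hs⟩ : ∃ s, s = 2 * q * x + b * y := ⟨_, rfl⟩
  obtain ⟨v, hv⟩ : ∃ v, v = q * x ^ 2 + b * x * y + h * y ^ 2 := ⟨_, rfl⟩
  rw [← hR, ← hs] at hlt
  have hv4 : 4 * q * v = s ^ 2 + 3 * m * y ^ 2 := by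
    rw [hs, hv]; linear_combination (-y ^ 2) * hbh
  have hsR : s = 6 * R + m * (2 * c * x + b * y - 6 * k) := by
    rw [hs, hR]; linear_combination (2 * x) * hc + (-b * y) * ht
  have hdvd : (m : ℤ) ∣ 4 * q * (3 * R ^ 2 + v) := by
    set g := 2 * c * x + b * y - 6 * k
    refine ⟨12 * c * R ^ 2 + 12 * R * g + m * g ^ 2 + 3 * y ^ 2, ?_⟩
    linear_combination hv4 + (12 * R ^ 2) * hc + (s + 6 * R + m * g) * hsR
  have hcop : IsCoprime (m : ℤ) (4 * q) := by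
    refine IsCoprime.mul_right ⟨1, -3 * t, by rw [ht]; ring⟩ ?_
    exact ⟨1 - 4 * t * c, 4 * t, by linear_combination ht + (4 * t) * hc⟩
  obtain ⟨n, hn⟩ := hcop.dvd_of_dvd_mul_left hdvd
  have hv0 : 0 ≤ v := by
    have : 0 ≤ 4 * q * v := by rw [hv4]; positivity
    exact nonneg_of_mul_nonneg_right this (by positivity) |> fun h => by
      exact le_of_mul_le_mul_left (by simpa using this) (by positivity : (0 : ℤ) < 4 * q)
  have hlt' : 3 * R ^ 2 + v < 3 * m := by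
    have : 4 * q * (3 * R ^ 2 + v) < 4 * q * (3 * m) := by linear_combination hlt + hv4
    exact lt_of_mul_lt_mul_left this (by positivity)
  have hn3 : n < 3 := by
    have : (m : ℤ) * n < m * 3 := by linear_combination hlt' - hn
    exact lt_of_mul_lt_mul_left this hm0.le
  have hn0 : 0 < n := by
    by_contra hh
    push Not at hh
    have h0 : (m : ℤ) * n ≤ 0 := mul_nonpos_of_nonneg_of_nonpos hm0.le hh
    have h1 : 3 * R ^ 2 + v ≤ 0 := by linarith
    have hR2 := sq_nonneg R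
    have hR0 : R = 0 := pow_eq_zero_iff (two_ne_zero) |>.1 (by linarith)
    have hvz : v = 0 := by linarith
    have h2 : s ^ 2 + 3 * m * y ^ 2 = 0 := by rw [← hv4, hvz]; ring
    have hs2 := sq_nonneg s
    have hy2 : 0 ≤ 3 * m * y ^ 2 := by positivity
    have hy3 : 3 * m * y ^ 2 = 0 := by linarith
    have hy : y = 0 := by
      rcases mul_eq_zero.1 hy3 with h | h
      · omega
      · exact pow_eq_zero_iff (two_ne_zero) |>.1 h
    have hs0 : s = 0 := pow_eq_zero_iff (two_ne_zero) |>.1 (by linarith)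
    have hx : x = 0 := by
      rw [hs, hy] at hs0
      have : (q : ℤ) * x = 0 := by linarith
      rcases mul_eq_zero.1 this with h | h
      · omega
      · exact h
    have hk : k = 0 := by
      rw [hR, hx, hy] at hR0
      have : (m : ℤ) * k = 0 := by linarith
      rcases mul_eq_zero.1 this with h | h
      · omega
      · exact h
    exact hne ⟨hx, hy, hk⟩
  have hn1 : n = 1 := by
    by_contra hh
    have hn2 : n = 2 := by omega
    subst hn2
    have h1 : v = 3 * (8 * t - R ^ 2) + 2 := by linear_combination hn + 2 * ht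
    have h2 : s ^ 2 = 3 * ((16 * r + 1) * v - m * y ^ 2 + 8 * t - R ^ 2) + 2 := by
      linear_combination -hv4 + 4 * v * hr + h1
    have h3 : s % 3 = 0 ∨ s % 3 = 1 ∨ s % 3 = 2 := by omega
    have h4 : s ^ 2 % 3 = 2 := by rw [h2]; omega
    rcases h3 with h3 | h3 | h3 <;> simp [pow_two, Int.mul_emod, h3] at h4
  subst hn1
  have hmv : v = m - 3 * R ^ 2 := by linear_combination hn
  have hv3 : v % 3 = 1 := by
    have : v = 3 * (4 * t - R ^ 2) + 1 := by linear_combination hmv + ht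
    omega
  obtain ⟨V, hV⟩ := Int.eq_ofNat_of_zero_le hv0
  have hVpos : 0 < V := by omega
  obtain ⟨b', a, hb0, ha0, hab, hbsq⟩ := Nat.sq_mul_squarefree_of_pos hVpos
  have hneg : IsSquare (-1 : ZMod b') := by
    rw [ZMod.isSquare_neg_one_iff_forall_mem_primeFactors_mod_four_ne_three hbsq]
    intro p hp h3
    have hpp := Nat.prime_of_mem_primeFactors hp
    have hpZ : Prime (p : ℤ) := Nat.prime_iff_prime_int.1 hpp
    obtain ⟨b'', rfl⟩ := Nat.dvd_of_mem_primeFactors hp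
    have hpb : ¬ (p : ℤ) ∣ b'' := by
      intro hh
      obtain ⟨b3, rfl⟩ := Int.natCast_dvd_natCast.1 hh
      exact hpp.not_isUnit (hbsq p ⟨b3, by ring⟩)
    have hvp : v = a ^ 2 * (p * b'') := by rw [hV, ← hab]; push_cast; ring
    have hp3 : ¬ (p : ℤ) ∣ 3 := by
      intro hh
      have : p ∣ 3 := by exact_mod_cast hh
      have hp3 : p = 3 := (Nat.prime_dvd_prime_iff_eq hpp Nat.prime_three).1 this
      subst hp3
      have : v = 3 * (a ^ 2 * b'') := by rw [hvp]; push_cast; ring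
      omega
    have hp2 : ¬ (p : ℤ) ∣ 2 := by
      intro hh
      have : p ∣ 2 := by exact_mod_cast hh
      have hp3 : p = 2 := (Nat.prime_dvd_prime_iff_eq hpp Nat.prime_two).1 this
      omega
    have hpq : ¬ (p : ℤ) ∣ 4 * q := by
      intro hh
      rcases hpZ.dvd_or_dvd hh with h1 | h1
      · exact hp2 (hpZ.dvd_of_dvd_pow (n := 2) (by simpa using h1))
      · have : p ∣ q := by exact_mod_cast h1
        have : p = q := (Nat.prime_dvd_prime_iff_eq hpp hq).1 this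
        omega
    by_cases hpm : (p : ℤ) ∣ m
    · obtain ⟨m', hm'⟩ := hpm
      have hpm' : ¬ (p : ℤ) ∣ m' := by
        rintro ⟨m3, rfl⟩
        have : ((p * p : ℕ) : ℤ) ∣ m := ⟨m3, by rw [hm']; push_cast; ring⟩
        exact hpp.not_isUnit (hsq p (Int.natCast_dvd_natCast.1 this))
      have hpR : (p : ℤ) ∣ R := by
        have : (p : ℤ) ∣ 3 * R ^ 2 := ⟨m' - a ^ 2 * b'', by linear_combination hmv + hm' - hvp⟩
        rcases hpZ.dvd_or_dvd this with h1 | h1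
        · exact absurd h1 hp3
        · exact hpZ.dvd_of_dvd_pow h1
      have hps : (p : ℤ) ∣ s := by
        apply hpZ.dvd_of_dvd_pow (n := 2)
        exact ⟨4 * q * a ^ 2 * b'' - 3 * m' * y ^ 2, by
          linear_combination -hv4 + 4 * q * hvp - 3 * y ^ 2 * hm'⟩
      obtain ⟨R', hR'⟩ := hpR
      obtain ⟨s', hs'⟩ := hps
      have hp0 : (p : ℤ) ≠ 0 := hpZ.ne_zero
      have h1 : 4 * q * (m' - 3 * p * R' ^ 2) = p * s' ^ 2 + 3 * m' * y ^ 2 := by
        apply mul_left_cancel₀ hp0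
        rw [hmv, hR', hs'] at hv4
        linear_combination hv4 + (3 * y ^ 2 - 4 * q) * hm'
      have h2 : (p : ℤ) ∣ 3 * m' * (y ^ 2 + 2 ^ 2 * 1 ^ 2) :=
        ⟨4 * m' * m' * c - 12 * q * R' ^ 2 - s' ^ 2, by
          linear_combination -h1 + 4 * m' * hc + 4 * m' * c * hm'⟩
      rcases hpZ.dvd_or_dvd h2 with h4 | h4
      · rcases hpZ.dvd_or_dvd h4 with h5 | h5
        · exact hp3 h5
        · exact hpm' h5
      · exact hpZ.not_dvd_one (aniso p hpp h3 2 y 1 hp2 h4).2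
    · have hu : ¬ (p : ℤ) ∣ 3 * R := by
        intro hh
        rcases hpZ.dvd_or_dvd hh with h1 | h1
        · exact hp3 h1
        · obtain ⟨R', hR'⟩ := h1
          exact hpm ⟨a ^ 2 * b'' + 3 * p * R' ^ 2, by
            rw [hR'] at hmv; linear_combination -hmv + hvp⟩
      refine descent p hpp h3 (3 * m) (3 * R) (4 * q) b'' hu
        ⟨3 * a ^ 2 * b'', by linear_combination -3 * hmv + 3 * hvp⟩ hpq hpb a ha0 s y ?_
      linear_combination hv4 - 4 * q * hvp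
  obtain ⟨x', y', hxy⟩ := Nat.eq_sq_add_sq_iff_eq_sq_mul.2 ⟨a, b', hab.symm, hneg⟩
  refine ⟨x', y', R, ?_⟩
  have : (V : ℤ) = x' ^ 2 + y' ^ 2 := by exact_mod_cast hxy
  linear_combination -hmv + hV + this

/-- every natural number that is `1 mod 24` is of the form `x² + y² + 3w²` -/
theorem rep_one_mod (n : ℤ) (h0 : 0 ≤ n) (hn : n % 24 = 1) :
    ∃ x y w : ℤ, n = x ^ 2 + y ^ 2 + 3 * w ^ 2 := by
  obtain ⟨N, rfl⟩ := Int.eq_ofNat_of_zero_le h0
  have hN : N % 24 = 1 := by omega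
  obtain ⟨m, a, hm0, ha0, hab, hsq⟩ := Nat.sq_mul_squarefree_of_pos (n := N) (by omega)
  have hm : m % 12 = 1 := by
    have h1 : (a % 12) ^ 2 * (m % 12) % 12 = 1 := by
      have : N % 12 = 1 := by omega
      rw [← hab] at this
      rw [← this]
      simp [Nat.mul_mod, Nat.pow_mod]
    have h2 : a % 12 < 12 := Nat.mod_lt _ (by norm_num)
    have h3 : m % 12 < 12 := Nat.mod_lt _ (by norm_num)
    generalize a % 12 = i at h1 h2
    generalize m % 12 = j at h1 h3 ⊢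
    interval_cases i <;> omega
  obtain ⟨x, y, w, h⟩ := rep_squarefree m hm hsq
  refine ⟨a * x, a * y, a * w, ?_⟩
  rw [← hab]; push_cast; rw [h]; ring

/-- the 3-adic obstruction -/
theorem obstruction (a : ℕ) : ∀ n x y w : ℤ, 9 ^ a * (9 * n + 6) ≠ x ^ 2 + y ^ 2 + 3 * w ^ 2 := by
  have sq3 : ∀ x : ℤ, ∃ k, x = 3 * k ∨ x = 3 * k + 1 ∨ x = 3 * k - 1 := by
    intro x
    have : x % 3 = 0 ∨ x % 3 = 1 ∨ x % 3 = 2 := by omega
    rcases this with h | h | h
    · exact ⟨x / 3, by omega⟩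
    · exact ⟨x / 3, by omega⟩
    · exact ⟨x / 3 + 1, by omega⟩
  have both : ∀ x y c : ℤ, x ^ 2 + y ^ 2 = 3 * c → ∃ k l, x = 3 * k ∧ y = 3 * l := by
    intro x y c h
    obtain ⟨k, hk⟩ := sq3 x
    obtain ⟨l, hl⟩ := sq3 y
    rcases hk with rfl | rfl | rfl <;> rcases hl with rfl | rfl | rfl
    · exact ⟨k, l, rfl, rfl⟩
    all_goals
      exfalso
      ring_nf at h
      omega
  induction a with
  | zero =>
    intro n x y w h
    obtain ⟨k, l, rfl, rfl⟩ := both x y (3 * n + 2 - w ^ 2) (by linear_combination -h)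
    obtain ⟨j, hj⟩ := sq3 w
    rcases hj with rfl | rfl | rfl <;> ring_nf at h <;> omega
  | succ a ih =>
    intro n x y w h
    obtain ⟨k, l, rfl, rfl⟩ := both x y (3 * (9 ^ a * (9 * n + 6)) - w ^ 2)
      (by linear_combination -h)
    obtain ⟨j, -, rfl, -⟩ := both w 0 (9 ^ a * (9 * n + 6) - k ^ 2 - l ^ 2)
      (by
        have : (3 : ℤ) * (w ^ 2 + 0 ^ 2) = 3 * (3 * (9 ^ a * (9 * n + 6) - k ^ 2 - l ^ 2)) := by
          linear_combination -h
        linarith)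
    refine ih n k l j ?_
    have : (9 : ℤ) * (9 ^ a * (9 * n + 6)) = 9 * (k ^ 2 + l ^ 2 + 3 * j ^ 2) := by
      linear_combination h
    linarith

end Pool.Agent.Lib.MP_3614fc_al
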