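import Mathlib
import Pool.Agent.Lib.MP_3614fc_al.Heis
import Pool.Agent.Lib.MP_3614fc_al.Squares

namespace Pool.Agent.Lib.MP_3614fc_al

/-- the coarse version of the good set -/
def Zc (Δ X Y z : ℤ) : Prop :=
  ∃ κ : ℤ, (κ = 1 ∨ κ = 4) ∧ ∃ π : List Hs, π.length = 8 ∧ (∀ p ∈ π, p = 1 ∨ P p) ∧ ∃ ℓ : ℤ,
    PW π (co X Y z) ℓ ∧ LBP (co X Y z) ℓ ∧ LBP (co X Y (z + κ * Δ)) ℓ ∧
      ¬ PW π (co X Y (z + κ * Δ)) ℓ

lemma zc_of {Δ X Y z : ℤ} (hΔ : 0 ≤ Δ) (hX : 0 ≤ X) (hY : 0 ≤ Y) (b₁ b₂ b₆ b₈ : Bool)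
    {c₁ c₂ c₃ : ℤ} (hc : Wt c₁ c₂ c₃) (κ : ℤ) (hκ : κ = 1 ∨ κ = 4) (ℓ : ℤ)
    (good : PW (pat b₁ b₂ b₆ b₈ c₁ c₂) (co X Y z) ℓ)
    (H : ∀ A B σ : ℤ, 3465 * X ≤ A → 3465 * Y ≤ B → A + B ≤ 3465 * σ → 3465 ^ 2 * z ≤ A * B →
      ℓ ≤ 2 * σ - X - Y)
    (bad : ∀ s j A N₁ N₂ N₃ : ℤ, (b₁ = false → s = 0) → (b₂ = false → j = 0) →
      (b₆ = false → N₃ = 0) → (b₈ = false → A = X) →
      |s| + |j| + |A - s| + |Y + j| + |X - A| ≤ ℓ →
      3465 ^ 2 * (A * (Y + j) - s * j - (z + κ * Δ)) ≠ c₁ * N₁ ^ 2 + c₂ * N₂ ^ 2 + c₃ * N₃ ^ 2) :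
    Zc Δ X Y z := by
  refine ⟨κ, hκ, _, rfl, pat_mem b₁ b₂ b₆ b₈ hc, ℓ, good, lbp_of X Y z ℓ hX hY H,
    lbp_of X Y _ ℓ hX hY fun A B σ h1 h2 h3 h4 => H A B σ h1 h2 h3 ?_, fun h => ?_⟩
  · have : 0 ≤ κ * Δ := mul_nonneg (by omega) hΔ
    linarith
  · obtain ⟨s, j, A, N₁, N₂, N₃, h1, h2, h3, h4, h5, h6⟩ := bad_word hc h
    exact bad s j A N₁ N₂ N₃ h1 h2 h3 h4 h6 h5

lemma obs0 (a : ℕ) (n t x y w : ℤ) (hn : n = 9 ^ a * (9 * t + 6)) :
    3465 ^ 2 * n ≠ x ^ 2 + y ^ 2 + 3 * w ^ 2 := by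
  intro h
  refine obstruction (a + 2) (148225 * t + 6 * 16469 + 2) x y w ?_
  rw [← h, hn]; ring

lemma obs (a : ℕ) {c₁ c₂ c₃ : ℤ} (hc : Wt c₁ c₂ c₃) (n t N₁ N₂ N₃ : ℤ)
    (hn : n = 9 ^ a * (9 * t + 6)) :
    3465 ^ 2 * n ≠ c₁ * N₁ ^ 2 + c₂ * N₂ ^ 2 + c₃ * N₃ ^ 2 := by
  rcases hc with ⟨rfl, rfl, rfl⟩ | ⟨rfl, rfl, rfl⟩ | ⟨rfl, rfl, rfl⟩
  · intro h; exact obs0 a n t N₁ N₂ N₃ hn (by linarith)
  · intro h; exact obs0 a n t N₁ N₃ N₂ hn (by linarith)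
  · intro h; exact obs0 a n t N₂ N₃ N₁ hn (by linarith)

lemma wt_nonneg {c₁ c₂ c₃ : ℤ} (hc : Wt c₁ c₂ c₃) (N₁ N₂ N₃ : ℤ) :
    0 ≤ c₁ * N₁ ^ 2 + c₂ * N₂ ^ 2 + c₃ * N₃ ^ 2 := by
  rcases hc with ⟨rfl, rfl, rfl⟩ | ⟨rfl, rfl, rfl⟩ | ⟨rfl, rfl, rfl⟩ <;> positivity

lemma rep0 (a : ℕ) (T k : ℤ) (h0 : 0 ≤ T) (hT : T = 9 ^ a * (72 * k + 1)) :
    ∃ x y w : ℤ, 0 ≤ x ∧ 0 ≤ y ∧ 0 ≤ w ∧ 72 * k + 1 = x ^ 2 + y ^ 2 + 3 * w ^ 2 := by
  have hE : (0 : ℤ) < 9 ^ a := by positivity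
  have h1 : 0 ≤ 72 * k + 1 := by
    by_contra hh
    push Not at hh
    nlinarith
  obtain ⟨x, y, w, h⟩ := rep_one_mod (72 * k + 1) h1 (by omega)
  exact ⟨|x|, |y|, |w|, abs_nonneg _, abs_nonneg _, abs_nonneg _, by simpa using h⟩

lemma rep3 (a : ℕ) (T k : ℤ) (h0 : 0 ≤ T) (hT : T = 9 ^ a * (72 * k + 1)) :
    ∃ c₁ c₂ c₃ N₁ N₂ N₃ : ℤ, Wt c₁ c₂ c₃ ∧ 0 ≤ N₃ ∧ N₃ ≤ N₂ ∧ N₂ ≤ N₁ ∧
      T = c₁ * N₁ ^ 2 + c₂ * N₂ ^ 2 + c₃ * N₃ ^ 2 ∧ N₁ ^ 2 ≤ T ∧
      (c₁ * N₁ + c₂ * N₂ + c₃ * N₃) ^ 2 ≤ 5 * T := by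
  obtain ⟨x, y, w, hx, hy, hw, h⟩ := rep0 a T k h0 hT
  have e : (9 : ℤ) ^ a = (3 ^ a) ^ 2 := by rw [← pow_mul, mul_comm, pow_mul]; norm_num
  have hF : (0 : ℤ) ≤ 3 ^ a := by positivity
  have key : ∀ x y w : ℤ, 0 ≤ x → 0 ≤ y → 0 ≤ w → y ≤ x → T = x ^ 2 + y ^ 2 + 3 * w ^ 2 →
      ∃ c₁ c₂ c₃ N₁ N₂ N₃ : ℤ, Wt c₁ c₂ c₃ ∧ 0 ≤ N₃ ∧ N₃ ≤ N₂ ∧ N₂ ≤ N₁ ∧
      T = c₁ * N₁ ^ 2 + c₂ * N₂ ^ 2 + c₃ * N₃ ^ 2 ∧ N₁ ^ 2 ≤ T ∧
      (c₁ * N₁ + c₂ * N₂ + c₃ * N₃) ^ 2 ≤ 5 * T := by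
    intro x y w hx hy hw hxy h
    have cs : (x + y + 3 * w) ^ 2 ≤ 5 * T := by
      rw [h]; nlinarith [sq_nonneg (x - y), sq_nonneg (x - w), sq_nonneg (y - w)]
    have p1 := sq_nonneg x
    have p2 := sq_nonneg y
    have p3 := sq_nonneg w
    rcases le_total w y with h1 | h1
    · exact ⟨1, 1, 3, x, y, w, Or.inl ⟨rfl, rfl, rfl⟩, hw, h1, hxy, by linarith, by linarith,
        by convert cs using 2; ring⟩
    · rcases le_total w x with h2 | h2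
      · exact ⟨1, 3, 1, x, w, y, Or.inr (Or.inl ⟨rfl, rfl, rfl⟩), hy, h1, h2, by linarith,
          by linarith, by convert cs using 2; ring⟩
      · exact ⟨3, 1, 1, w, x, y, Or.inr (Or.inr ⟨rfl, rfl, rfl⟩), hy, hxy, h2, by linarith,
          by linarith, by convert cs using 2; ring⟩
  rcases le_total y x with h1 | h1
  · exact key (3 ^ a * x) (3 ^ a * y) (3 ^ a * w) (by positivity) (by positivity) (by positivity)
      (mul_le_mul_of_nonneg_left h1 hF) (by rw [hT, h, e]; ring)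
  · exact key (3 ^ a * y) (3 ^ a * x) (3 ^ a * w) (by positivity) (by positivity) (by positivity)
      (mul_le_mul_of_nonneg_left h1 hF) (by rw [hT, h, e]; ring)

lemma rep2 (a : ℕ) (σ T k : ℤ) (h0 : 0 ≤ T)
    (hT : (σ % 2 = 1 ∧ T = 9 ^ a * (72 * k + 1)) ∨ (σ % 2 = 0 ∧ T = 4 * (9 ^ a * (72 * k + 1)))) :
    ∃ u c₁ c₂ N₁ N₂ : ℤ, ((c₁ = 1 ∧ c₂ = 3) ∨ (c₁ = 3 ∧ c₂ = 1)) ∧ 0 ≤ u ∧ (σ - u) % 2 = 0 ∧
      0 ≤ N₂ ∧ N₂ ≤ N₁ ∧ T = u ^ 2 + 4 * (c₁ * N₁ ^ 2 + c₂ * N₂ ^ 2) := by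
  have e : (9 : ℤ) ^ a = (3 ^ a) ^ 2 := by rw [← pow_mul, mul_comm, pow_mul]; norm_num
  have hF : (0 : ℤ) ≤ 3 ^ a := by positivity
  have key : ∀ u y w : ℤ, 0 ≤ u → 0 ≤ y → 0 ≤ w → (σ - u) % 2 = 0 →
      T = u ^ 2 + 4 * (y ^ 2 + 3 * w ^ 2) →
      ∃ u c₁ c₂ N₁ N₂ : ℤ, ((c₁ = 1 ∧ c₂ = 3) ∨ (c₁ = 3 ∧ c₂ = 1)) ∧ 0 ≤ u ∧ (σ - u) % 2 = 0 ∧
      0 ≤ N₂ ∧ N₂ ≤ N₁ ∧ T = u ^ 2 + 4 * (c₁ * N₁ ^ 2 + c₂ * N₂ ^ 2) := by
    intro u y w hu hy hw hp h
    rcases le_total w y with h1 | h1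
    · exact ⟨u, 1, 3, y, w, Or.inl ⟨rfl, rfl⟩, hu, hp, hw, h1, by linarith⟩
    · exact ⟨u, 3, 1, w, y, Or.inr ⟨rfl, rfl⟩, hu, hp, hy, h1, by linarith⟩
  have hodd : Odd ((3 : ℤ) ^ a) := Odd.pow (by decide)
  rcases hT with ⟨hσ, hT⟩ | ⟨hσ, hT⟩
  · obtain ⟨x, y, w, hx, hy, hw, h⟩ := rep0 a T k h0 hT
    have sq8 : ∀ x : ℤ, (x % 2 = 0 ∧ x ^ 2 % 4 = 0) ∨ (x % 2 = 1 ∧ x ^ 2 % 8 = 1) := by
      intro x
      have : x % 8 = 0 ∨ x % 8 = 1 ∨ x % 8 = 2 ∨ x % 8 = 3 ∨ x % 8 = 4 ∨ x % 8 = 5 ∨ x % 8 = 6 ∨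
        x % 8 = 7 := by omega
      have h8 : x ^ 2 % 8 = (x % 8) ^ 2 % 8 := by simp [pow_two, Int.mul_emod]
      rcases this with h | h | h | h | h | h | h | h <;> rw [h] at h8 <;> norm_num at h8 <;> omega
    have par : w % 2 = 0 ∧ ((x % 2 = 1 ∧ y % 2 = 0) ∨ (x % 2 = 0 ∧ y % 2 = 1)) := by
      rcases sq8 x with a1 | a1 <;> rcases sq8 y with a2 | a2 <;> rcases sq8 w with a3 | a3 <;>
        omega
    obtain ⟨w', rfl⟩ : ∃ w', w = 2 * w' := ⟨w / 2, by omega⟩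
    have hw' : 0 ≤ w' := by omega
    rcases par.2 with ⟨p1, p2⟩ | ⟨p1, p2⟩
    · obtain ⟨y', rfl⟩ : ∃ y', y = 2 * y' := ⟨y / 2, by omega⟩
      have hy' : 0 ≤ y' := by omega
      have : Odd (3 ^ a * x) := hodd.mul (Int.odd_iff.2 p1)
      rw [Int.odd_iff] at this
      exact key (3 ^ a * x) (3 ^ a * y') (3 ^ a * w') (by positivity) (by positivity)
        (by positivity) (by omega) (by rw [hT, h, e]; ring)
    · obtain ⟨x', rfl⟩ : ∃ x', x = 2 * x' := ⟨x / 2, by omega⟩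
      have hx' : 0 ≤ x' := by omega
      have : Odd (3 ^ a * y) := hodd.mul (Int.odd_iff.2 p2)
      rw [Int.odd_iff] at this
      exact key (3 ^ a * y) (3 ^ a * x') (3 ^ a * w') (by positivity) (by positivity)
        (by positivity) (by omega) (by rw [hT, h, e]; ring)
  · obtain ⟨x, y, w, hx, hy, hw, h⟩ := rep0 a (9 ^ a * (72 * k + 1)) k (by linarith) rfl
    exact key (2 * (3 ^ a * x)) (3 ^ a * y) (3 ^ a * w) (by positivity) (by positivity)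
      (by positivity) (by omega) (by rw [hT, h, e]; ring)

/-- lower bound when one side is pinned -/
lemma pinned (X B z A' B' σ : ℤ) (hX : 0 ≤ X) (hz : X * (B - 1) < z)
    (hc : B ≤ X + 1 ∨ (X + B - 1) ^ 2 < 4 * z) (hB' : 0 ≤ B')
    (h1 : 3465 * X ≤ A') (h3 : A' + B' ≤ 3465 * σ) (h4 : 3465 ^ 2 * z ≤ A' * B') :
    X + B ≤ σ := by
  by_contra hh
  push Not at hh
  have h5 : A' + B' ≤ 3465 * (X + B - 1) := by omega
  rcases hc with hc | hc
  · have h6 : A' * B' ≤ A' * (3465 * (X + B - 1) - A') :=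
      mul_le_mul_of_nonneg_left (by omega) (by omega)
    have h7 : 0 ≤ (A' - 3465 * X) * (A' - 3465 * (B - 1)) := mul_nonneg (by omega) (by omega)
    linarith
  · have h6 : (A' + B') ^ 2 ≤ (3465 * (X + B - 1)) ^ 2 :=
      pow_le_pow_left₀ (by omega) h5 2
    linarith [sq_nonneg (A' - B')]

lemma mul_self_ge (c B : ℤ) (h0 : 0 ≤ B) (h : c ≤ B) : c * B ≤ B ^ 2 := by nlinarith

lemma le_of_sq (u v : ℤ) (hv : 0 ≤ v) (h : u ^ 2 ≤ v ^ 2) : u ≤ v :=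
  (abs_le_of_sq_le_sq' h hv).2

section
variable {a : ℕ} {Δ t : ℤ} (hΔ : 0 ≤ Δ) (ht : Δ = 9 ^ a * (9 * t + 1))
include hΔ ht

lemma R1 (X Y z B x k : ℤ) (hY : 0 ≤ Y) (hx : X = 9 ^ a * (72 * x))
    (hT : X * B - z = 9 ^ a * (72 * k + 1)) (h0 : 0 ≤ X * B - z) (h1 : X * B - z < X)
    (hB0 : 0 ≤ B) (hB : 20 * X ≤ B ^ 2) (hc : B ≤ Y ∨ B ≤ X + 1 ∨ (X + B - 1) ^ 2 < 4 * z) :
    Zc Δ X Y z := by
  obtain ⟨c₁, c₂, c₃, N₁, N₂, N₃, hW, n3, n2, n1, hs, q1, q2⟩ := rep3 a _ k h0 hT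
  have hX : 0 ≤ X := by omega
  have hXX := mul_self_ge 1 X hX (by omega)
  have g := good_word (b₁ := false) (b₂ := true) (b₆ := true) (b₈ := false) hW (X := X) (Y := Y)
    (z := z) 0 (B - Y) X N₁ N₂ N₃ (fun _ => rfl) (by simp) (by simp) (fun _ => rfl) n3 n2 n1
    (by apply le_of_sq _ _ (by omega); linarith)
    (by apply le_of_sq _ _ (by omega); linarith) (by linear_combination -hs)
  refine zc_of hΔ hX hY false true true false hW 4 (Or.inr rfl) _ g ?_ ?_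
  · intro A' B' σ a1 a2 a3 a4
    simp only [abs_zero, sub_self]
    rcases le_or_gt B Y with h | h
    · rw [abs_of_nonpos (by omega)]; omega
    · rw [abs_of_nonneg (by omega)]
      have := pinned X B z A' B' σ hX (by linarith) (by rcases hc with hc | hc; omega; exact hc)
        (by omega) a1 a3 a4
      omega
  · intro s j A M₁ M₂ M₃ f1 _ _ f8 _
    rw [f1 rfl, f8 rfl]
    refine obs a hW _ (8 * x * (Y + j - B) + 8 * k - 4 * t - 1) _ _ _ ?_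
    linear_combination hT + (Y + j - B) * hx - 4 * ht

lemma R2 (X Y z A y k : ℤ) (hX : 0 ≤ X) (hY : 20 ≤ Y) (hy : Y = 9 ^ a * (72 * y))
    (hT : A * Y - z = 9 ^ a * (72 * k + 1)) (h0 : 0 ≤ A * Y - z) (h1 : A * Y - z < Y)
    (hA0 : 0 ≤ A) (hA : Y ≤ A ^ 2) (hc : A ≤ X ∨ A ≤ Y + 1 ∨ (Y + A - 1) ^ 2 < 4 * z) :
    Zc Δ X Y z := by
  obtain ⟨c₁, c₂, c₃, N₁, N₂, N₃, hW, n3, n2, n1, hs, q1, q2⟩ := rep3 a _ k h0 hT
  have hYY := mul_self_ge 20 Y (by omega) hY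
  have g := good_word (b₁ := false) (b₂ := false) (b₆ := true) (b₈ := true) hW (X := X) (Y := Y)
    (z := z) 0 0 A N₁ N₂ N₃ (fun _ => rfl) (fun _ => rfl) (by simp) (by simp) n3 n2 n1
    (by apply le_of_sq _ _ (by omega); linarith)
    (by apply le_of_sq _ _ (by omega); linarith) (by linear_combination -hs)
  refine zc_of hΔ hX (by omega) false false true true hW 4 (Or.inr rfl) _ g ?_ ?_
  · intro A' B' σ a1 a2 a3 a4
    simp only [abs_zero]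
    rcases le_or_gt A X with h | h
    · rw [abs_of_nonneg (by omega)]; omega
    · rw [abs_of_nonpos (by omega)]
      have := pinned Y A z B' A' σ (by omega) (by linarith)
        (by rcases hc with hc | hc; omega; exact hc) (by omega) a2 (by omega) (by linarith)
      omega
  · intro s j A' M₁ M₂ M₃ f1 f2 _ _ _
    rw [f1 rfl, f2 rfl]
    refine obs a hW _ (8 * y * (A' - A) + 8 * k - 4 * t - 1) _ _ _ ?_
    linear_combination hT + (A' - A) * hy - 4 * ht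

lemma R3 (X Y z σ k : ℤ) (hX : 0 ≤ X) (hY : 0 ≤ Y) (hσ : 50 ≤ σ) (hX2 : 2 * X ≤ σ)
    (hY2 : 2 * Y ≤ σ) (hlo : (σ - 1) ^ 2 < 4 * z) (hhi : 4 * z ≤ σ ^ 2)
    (hμ : (Y ≤ X ∧ Y * (σ - Y) ≤ z) ∨ (X ≤ Y ∧ X * (σ - X) ≤ z))
    (hT : (σ % 2 = 1 ∧ σ ^ 2 - 4 * z = 9 ^ a * (72 * k + 1)) ∨
      (σ % 2 = 0 ∧ σ ^ 2 - 4 * z = 4 * (9 ^ a * (72 * k + 1)))) :
    Zc Δ X Y z := by
  obtain ⟨u, c₁, c₂, N₁, N₂, hc, hu, hp, n2, n1, hs⟩ := rep2 a σ _ k (by omega) hT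
  have hW : Wt c₁ c₂ 1 := by
    rcases hc with ⟨rfl, rfl⟩ | ⟨rfl, rfl⟩
    · exact Or.inr (Or.inl ⟨rfl, rfl, rfl⟩)
    · exact Or.inr (Or.inr ⟨rfl, rfl, rfl⟩)
  have q0 : 0 ≤ c₁ * N₁ ^ 2 + c₂ * N₂ ^ 2 := by
    rcases hc with ⟨rfl, rfl⟩ | ⟨rfl, rfl⟩ <;> positivity
  have q1 : N₁ ^ 2 ≤ c₁ * N₁ ^ 2 + c₂ * N₂ ^ 2 := by
    rcases hc with ⟨rfl, rfl⟩ | ⟨rfl, rfl⟩ <;> linarith [sq_nonneg N₁, sq_nonneg N₂]
  have q2 : (c₁ * N₁ + c₂ * N₂) ^ 2 ≤ 4 * (c₁ * N₁ ^ 2 + c₂ * N₂ ^ 2) := by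
    rcases hc with ⟨rfl, rfl⟩ | ⟨rfl, rfl⟩ <;> linarith [sq_nonneg (N₁ - N₂)]
  have hTlt : σ ^ 2 - 4 * z < 2 * σ := by linarith
  have hu2 := sq_nonneg u
  have hσσ : 50 * σ ≤ σ ^ 2 := mul_self_ge 50 σ (by omega) hσ
  have b1 : 5 * u ≤ σ := by apply le_of_sq _ _ (by omega); linarith
  have b2 : 5 * N₁ ≤ σ := by apply le_of_sq _ _ (by omega); linarith
  have b3 : 5 * (c₁ * N₁ + c₂ * N₂) ≤ σ := by apply le_of_sq _ _ (by omega); linarith
  obtain ⟨A, B, hAB, hd, hA, hB, hA', hB'⟩ : ∃ A B : ℤ, A + B = σ ∧ (A - B) ^ 2 = u ^ 2 ∧ X ≤ A ∧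
      Y ≤ B ∧ σ - u ≤ 2 * A ∧ σ - u ≤ 2 * B := by
    obtain ⟨v, hv⟩ : ∃ v, σ - u = 2 * v := ⟨(σ - u) / 2, by omega⟩
    rcases hμ with ⟨h1, h2⟩ | ⟨h1, h2⟩
    · have : u ≤ σ - 2 * Y := by apply le_of_sq _ _ (by omega); linarith
      exact ⟨v + u, v, by omega, by ring, by omega, by omega, by omega, by omega⟩
    · have : u ≤ σ - 2 * X := by apply le_of_sq _ _ (by omega); linarith
      exact ⟨v, v + u, by omega, by ring, by omega, by omega, by omega, by omega⟩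
  have g := good_word (b₁ := false) (b₂ := true) (b₆ := false) (b₈ := true) hW (X := X) (Y := Y)
    (z := z) 0 (B - Y) A N₁ N₂ 0 (fun _ => rfl) (by simp) (fun _ => rfl) (by simp) le_rfl n2 n1
    (by omega) (by linarith)
    (by
      have : 4 * z = 4 * (A * (Y + (B - Y)) - 0 * (B - Y) - (c₁ * N₁ ^ 2 + c₂ * N₂ ^ 2 + 1 * 0 ^ 2)) := by
        rw [← hAB] at hs
        linear_combination -hs + hd
      linarith)
  rw [abs_zero, abs_of_nonneg (a := B - Y) (by omega), abs_of_nonpos (a := X - A) (by omega)] at g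
  obtain ⟨κ, hκ, r, hr⟩ : ∃ κ : ℤ, (κ = 1 ∨ κ = 4) ∧
      ∃ r, σ ^ 2 - 4 * (z + κ * Δ) = 9 ^ a * (9 * r + 6) := by
    rcases hT with ⟨-, h⟩ | ⟨-, h⟩
    · exact ⟨1, Or.inl rfl, 8 * k - 4 * t - 1, by linear_combination h - 4 * ht⟩
    · exact ⟨4, Or.inr rfl, 32 * k - 16 * t - 2, by linear_combination h - 16 * ht⟩
  have hκΔ : 0 ≤ κ * Δ := mul_nonneg (by omega) hΔ
  refine zc_of hΔ hX hY false true false true hW κ hκ _ g ?_ ?_
  · intro A' B' σ' a1 a2 a3 a4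
    have : σ ≤ σ' := by
      by_contra hh
      push Not at hh
      have h5 : A' + B' ≤ 3465 * (σ - 1) := by omega
      have h6 : (A' + B') ^ 2 ≤ (3465 * (σ - 1)) ^ 2 := pow_le_pow_left₀ (by omega) h5 2
      linarith [sq_nonneg (A' - B')]
    omega
  · intro s j A' M₁ M₂ M₃ f1 _ f6 _ hl h
    rw [f1 rfl] at hl h
    rw [f6 rfl] at h
    obtain ⟨B', hB'⟩ : ∃ B', B' = Y + j := ⟨_, rfl⟩
    rw [← hB'] at hl h
    have q3 : 0 ≤ c₁ * M₁ ^ 2 + c₂ * M₂ ^ 2 := by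
      rcases hc with ⟨rfl, rfl⟩ | ⟨rfl, rfl⟩ <;> positivity
    have e1 : z ≤ A' * B' := by linarith
    have e2 : |A'| + |B'| ≤ σ := by
      rw [sub_zero] at hl
      rcases abs_cases j with u1 | u1 <;> rcases abs_cases A' with u2 | u2 <;>
        rcases abs_cases B' with u3 | u3 <;> rcases abs_cases (X - A') with u4 | u4 <;>
        simp only [abs_zero] at hl <;> omega
    have e3 : (σ - 1) ^ 2 < (A' + B') ^ 2 := by linarith [sq_nonneg (A' - B')]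
    have e4 : |A' + B'| ≤ σ := (abs_add_le _ _).trans e2
    have e5 : σ - 1 < |A' + B'| := by
      by_contra hh
      push Not at hh
      have := pow_le_pow_left₀ (abs_nonneg _) hh 2
      rw [sq_abs] at this
      omega
    have e6 : (A' + B') ^ 2 = σ ^ 2 := by
      rw [← sq_abs, show |A' + B'| = σ by omega]
    rcases hc with ⟨rfl, rfl⟩ | ⟨rfl, rfl⟩
    · exact obs0 a _ r (3465 * (A' - B')) (2 * M₁) (2 * M₂) hr
        (by linear_combination 4 * h - 3465 ^ 2 * e6)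
    · exact obs0 a _ r (3465 * (A' - B')) (2 * M₂) (2 * M₁) hr
        (by linear_combination 4 * h - 3465 ^ 2 * e6)

lemma R4 (X Y z B x i k : ℤ) (hY : 0 ≤ Y) (hx : X + 1 = 9 ^ a * (72 * x))
    (hi : B - Y = 9 ^ a * (72 * i)) (hj : 20 ≤ B - Y) (hXB : 2 * B ≤ X)
    (hT : X * B - z = 9 ^ a * (72 * k + 1)) (h0 : 0 ≤ X * B - z) (h1 : X * B - z < X) :
    Zc Δ X Y z := by
  obtain ⟨j, hjdef⟩ : ∃ j, j = B - Y := ⟨_, rfl⟩
  obtain ⟨T, hTdef⟩ : ∃ T, T = X * B - z := ⟨_, rfl⟩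
  rw [← hjdef] at hi hj
  rw [← hTdef] at hT h0 h1
  obtain ⟨s, hs0, hs1, hs2⟩ : ∃ s, 0 ≤ s ∧ 0 ≤ T - s * j ∧ T - s * j < j := by
    refine ⟨T / j, Int.ediv_nonneg h0 (by omega), ?_, ?_⟩
    · have := Int.emod_nonneg T (by omega : j ≠ 0)
      have := Int.emod_add_mul_ediv T j
      linarith
    · have := Int.emod_lt_of_pos T (by omega : 0 < j)
      have := Int.emod_add_mul_ediv T j
      linarith
  obtain ⟨c₁, c₂, c₃, N₁, N₂, N₃, hW, n3, n2, n1, hs, q1, q2⟩ :=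
    rep3 a _ (k - s * i) hs1 (by linear_combination hT - s * hi)
  have hs3 : 2 * s ≤ X := by
    have := mul_le_mul_of_nonneg_left hj hs0
    linarith
  have hjj := mul_self_ge 1 j (by omega) (by omega)
  have hN1 : N₁ ≤ j := by apply le_of_sq _ _ (by omega); linarith
  have hBj : 20 * j ≤ B ^ 2 := by
    have := mul_self_ge 20 B (by omega) (by omega)
    omega
  have g := good_word (b₁ := true) (b₂ := true) (b₆ := true) (b₈ := false) hW (X := X) (Y := Y)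
    (z := z) s j X N₁ N₂ N₃ (by simp) (by simp) (by simp) (fun _ => rfl) n3 n2 n1
    (by omega) (by apply le_of_sq _ _ (by omega); rw [show Y + j = B by omega]; linarith)
    (by rw [show Y + j = B by omega]; linear_combination -hs + hTdef)
  rw [abs_of_nonneg hs0, abs_of_nonneg (a := j) (by omega), sub_self, abs_zero] at g
  refine zc_of hΔ (by omega) hY true true true false hW 4 (Or.inr rfl) _ g ?_ ?_
  · intro A' B' σ a1 a2 a3 a4
    have := pinned X B z A' B' σ (by omega) (by linarith) (Or.inl (by omega)) (by omega) a1 a3 a4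
    omega
  · intro s' j' A M₁ M₂ M₃ _ _ _ f8 hl h
    rw [f8 rfl] at hl h
    rw [sub_self, abs_zero] at hl
    have hpos := wt_nonneg hW M₁ M₂ M₃
    have harea : X * (B - 1) < X * (Y + j') - s' * j' := by linarith
    have hcases : j' = j ∨ (j' = j - 1 ∧ s' = -1) := by
      have hXpos : 0 < X := by omega
      have hBY : B = Y + j := by omega
      rcases le_or_gt 0 s' with u1 | u1
      · rcases le_or_gt s' X with u2 | u2
        · left
          rw [abs_of_nonneg u1, abs_of_nonneg (a := X - s') (by omega)] at hl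
          have v1 : j' ≤ j := by
            have := le_abs_self j'
            have := le_abs_self (Y + j')
            omega
          by_contra hne
          have v2 : j' ≤ j - 1 := by omega
          have w1 : (X - s') * j' ≤ (X - s') * (j - 1) := mul_le_mul_of_nonneg_left v2 (by omega)
          have w2 : 0 ≤ s' * (j - 1) := mul_nonneg u1 (by omega)
          rw [hBY] at harea
          linarith
        · exfalso
          rw [abs_of_nonneg u1, abs_of_nonpos (a := X - s') (by omega)] at hl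
          obtain ⟨r, hr⟩ : ∃ r, r = s' - X := ⟨_, rfl⟩
          have v0 : X * (j - 1) < r * (-j') := by rw [hBY] at harea; rw [hr]; linarith
          have v1 : r ≤ j := by
            have := neg_abs_le j'
            have := le_abs_self (Y + j')
            omega
          have v2 : -j' ≤ B := by
            have := neg_abs_le j'
            have := neg_abs_le (Y + j')
            omega
          have w1 : r * (-j') ≤ r * B := mul_le_mul_of_nonneg_left v2 (by omega)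
          have w2 : r * B ≤ j * B := mul_le_mul_of_nonneg_right v1 (by omega)
          have w3 : j * (2 * B) ≤ j * X := mul_le_mul_of_nonneg_left hXB (by omega)
          have w4 : 0 ≤ X * (j - 2) := mul_nonneg (by omega) (by omega)
          linarith
      · right
        rw [abs_of_neg u1, abs_of_nonneg (a := X - s') (by omega)] at hl
        obtain ⟨r, hr⟩ : ∃ r, r = -s' := ⟨_, rfl⟩
        have v0 : X * (j - 1) < (X + r) * j' := by rw [hBY] at harea; rw [hr]; linarith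
        have v1 : j' ≤ j - r := by
          have := le_abs_self j'
          have := le_abs_self (Y + j')
          omega
        have v2 : (X + r) * j' ≤ (X + r) * (j - r) := mul_le_mul_of_nonneg_left v1 (by omega)
        have v3 : r = 1 := by
          by_contra hne
          have r2 : 2 ≤ r := by omega
          have w1 : r * (2 * j) ≤ r * X := mul_le_mul_of_nonneg_left (by omega) (by omega)
          have w2 : 0 ≤ X * (r - 2) := mul_nonneg (by omega) (by omega)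
          linarith [sq_nonneg r]
        refine ⟨?_, by omega⟩
        by_contra hne
        have v4 : j' ≤ j - 2 := by omega
        have w1 : (X + r) * j' ≤ (X + r) * (j - 2) := mul_le_mul_of_nonneg_left v4 (by omega)
        rw [v3] at w1 v0
        linarith
    rcases hcases with rfl | ⟨rfl, rfl⟩
    · refine obs a hW _ (8 * k - 8 * s' * i - 4 * t - 1) _ _ _ ?_ h
      linear_combination hT - hTdef - s' * hi - 4 * ht + X * hjdef
    · refine obs a hW _ (8 * k - 8 * x + 8 * i - 4 * t - 1) _ _ _ ?_ h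
      linear_combination hT - hTdef + hi - hx - 4 * ht + X * hjdef

lemma R5 (X Y z A y i k : ℤ) (hX : 0 ≤ X) (hy : Y + 1 = 9 ^ a * (72 * y))
    (hi : A = 9 ^ a * (72 * i)) (hA : 20 ≤ A) (hXA : X < A) (hYA : 2 * A ≤ Y)
    (hT : A * Y - z = 9 ^ a * (72 * k + 1)) (h0 : 0 ≤ A * Y - z) (h1 : A * Y - z < Y) :
    Zc Δ X Y z := by
  obtain ⟨T, hTdef⟩ : ∃ T, T = A * Y - z := ⟨_, rfl⟩
  rw [← hTdef] at hT h0 h1
  obtain ⟨s, hs0, hs1, hs2⟩ : ∃ s, 0 ≤ s ∧ 0 ≤ T - s * A ∧ T - s * A < A := by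
    refine ⟨T / A, Int.ediv_nonneg h0 (by omega), ?_, ?_⟩
    · have := Int.emod_nonneg T (by omega : A ≠ 0)
      have := Int.emod_add_mul_ediv T A
      linarith
    · have := Int.emod_lt_of_pos T (by omega : 0 < A)
      have := Int.emod_add_mul_ediv T A
      linarith
  obtain ⟨c₁, c₂, c₃, N₁, N₂, N₃, hW, n3, n2, n1, hs, q1, q2⟩ :=
    rep3 a _ (k - s * i) hs1 (by linear_combination hT - s * hi)
  have hs3 : 2 * s ≤ Y := by
    have := mul_le_mul_of_nonneg_left hA hs0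
    linarith
  have hAA : 20 * A ≤ A ^ 2 := mul_self_ge 20 A (by omega) hA
  have hN1 : N₁ ≤ A := by apply le_of_sq _ _ (by omega); linarith
  have hN2 : 2 * (c₁ * N₁ + c₂ * N₂ + c₃ * N₃) ≤ A := by
    apply le_of_sq _ _ (by omega); linarith
  have g := good_word (b₁ := false) (b₂ := true) (b₆ := true) (b₈ := true) hW (X := X) (Y := Y)
    (z := z) 0 (-s) A N₁ N₂ N₃ (fun _ => rfl) (by simp) (by simp) (by simp) n3 n2 n1
    (by omega) (by omega) (by linear_combination -hs + hTdef)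
  rw [abs_zero, abs_neg, abs_of_nonneg hs0, abs_of_nonpos (a := X - A) (by omega)] at g
  refine zc_of hΔ hX (by omega) false true true true hW 4 (Or.inr rfl) _ g ?_ ?_
  · intro A' B' σ a1 a2 a3 a4
    have := pinned Y A z B' A' σ (by omega) (by linarith) (Or.inl (by omega)) (by omega) a2
      (by omega) (by linarith)
    omega
  · intro s' j' A' M₁ M₂ M₃ f1 _ _ _ hl h
    rw [f1 rfl] at hl h
    rw [sub_zero, abs_zero] at hl
    have hpos := wt_nonneg hW M₁ M₂ M₃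
    have harea : Y * (A - 1) < A' * (Y + j') := by linarith
    have hcases : A' = A ∨ (A' = A - 1 ∧ j' = 1) := by
      rcases le_or_gt j' 0 with u1 | u1
      · rcases le_or_gt 0 (Y + j') with u2 | u2
        · left
          rw [abs_of_nonpos u1, abs_of_nonneg u2] at hl
          have v1 : A' ≤ A := by
            have := le_abs_self A'
            have := neg_abs_le (X - A')
            omega
          by_contra hne
          have v2 : A' ≤ A - 1 := by omega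
          have w1 : A' * (Y + j') ≤ (A - 1) * (Y + j') := mul_le_mul_of_nonneg_right v2 u2
          have w2 : 0 ≤ (A - 1) * (-j') := mul_nonneg (by omega) (by omega)
          linarith
        · exfalso
          rw [abs_of_nonpos u1, abs_of_neg u2] at hl
          obtain ⟨r, hr⟩ : ∃ r, r = -(Y + j') := ⟨_, rfl⟩
          have v0 : Y * (A - 1) < (-A') * r := by rw [hr]; linarith
          have v1 : r + -A' ≤ A := by
            have := neg_abs_le A'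
            have := le_abs_self (X - A')
            omega
          have w1 : (-A') * r ≤ (A - r) * r := mul_le_mul_of_nonneg_right (by omega) (by omega)
          have w2 : 2 * A * (A - 1) ≤ Y * (A - 1) := mul_le_mul_of_nonneg_right hYA (by omega)
          linarith [sq_nonneg (A - 2 * r), hAA]
      · right
        rw [abs_of_pos u1, abs_of_nonneg (a := Y + j') (by omega)] at hl
        have v1 : A' ≤ A - j' := by
          have := le_abs_self A'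
          have := neg_abs_le (X - A')
          omega
        have v2 : A' * (Y + j') ≤ (A - j') * (Y + j') := mul_le_mul_of_nonneg_right v1 (by omega)
        have v3 : j' = 1 := by
          by_contra hne
          have r2 : 2 ≤ j' := by omega
          have w1 : j' * (2 * A) ≤ j' * Y := mul_le_mul_of_nonneg_left hYA (by omega)
          have w2 : 0 ≤ Y * (j' - 2) := mul_nonneg (by omega) (by omega)
          linarith [sq_nonneg j']
        refine ⟨?_, v3⟩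
        by_contra hne
        have v4 : A' ≤ A - 2 := by omega
        have w1 : A' * (Y + j') ≤ (A - 2) * (Y + j') := mul_le_mul_of_nonneg_right v4 (by omega)
        rw [v3] at w1 harea
        linarith
    rcases hcases with rfl | ⟨rfl, rfl⟩
    · refine obs a hW _ (8 * k + 8 * j' * i - 4 * t - 1) _ _ _ ?_ h
      linear_combination hT - hTdef + j' * hi - 4 * ht
    · refine obs a hW _ (8 * k - 8 * y + 8 * i - 4 * t - 1) _ _ _ ?_ h
      linear_combination hT - hTdef + hi - hy - 4 * ht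

end

end Pool.Agent.Lib.MP_3614fc_al
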