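import Mathlib
import Pool.Agent.Lib.MP_3614fc_al.Regimes

namespace Pool.Agent.Lib.MP_3614fc_al

lemma pick (Q p q z ρ : ℤ) (hQ : 0 < Q) (h : p + Q ≤ q) (h1 : p ≤ z) (h2 : z ≤ q) :
    ∃ z' k : ℤ, p ≤ z' ∧ z' ≤ q ∧ z - Q ≤ z' ∧ z' ≤ z + Q ∧ z' = ρ + Q * k := by
  rcases le_or_gt (z + Q) q with h3 | h3
  · have a1 := Int.emod_nonneg (ρ - z) hQ.ne'
    have a2 := Int.emod_lt_of_pos (ρ - z) hQ
    have a3 := Int.emod_add_mul_ediv (ρ - z) Q
    exact ⟨z + (ρ - z) % Q, -((ρ - z) / Q), by omega, by omega, by omega, by omega, by linarith⟩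
  · have a1 := Int.emod_nonneg (q - ρ) hQ.ne'
    have a2 := Int.emod_lt_of_pos (q - ρ) hQ
    have a3 := Int.emod_add_mul_ediv (q - ρ) Q
    exact ⟨q - (q - ρ) % Q, (q - ρ) / Q, by omega, by omega, by omega, by omega, by linarith⟩

lemma ceil_ex (X z : ℤ) (hX : 0 < X) : ∃ B, 0 ≤ X * B - z ∧ X * B - z < X := by
  have a1 := Int.emod_nonneg (-z) hX.ne'
  have a2 := Int.emod_lt_of_pos (-z) hX
  have a3 := Int.emod_add_mul_ediv (-z) X
  exact ⟨-(-z / X), by linarith, by linarith⟩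

lemma lt_cancel {X u v : ℤ} (hX : 0 < X) (h : X * u < X * v) : u < v :=
  lt_of_mul_lt_mul_left h hX.le

lemma le_cancel {X u v : ℤ} (hX : 0 < X) (h : X * u ≤ X * v) : u ≤ v :=
  le_of_mul_le_mul_left h hX

lemma le_sq' (c : ℤ) {B W : ℤ} (hB : c ≤ B) (h0 : 0 ≤ B) (hW : W ≤ c * B) : W ≤ B ^ 2 := by
  nlinarith

lemma amgm (σ μ : ℤ) : 4 * (μ * (σ - μ)) ≤ σ ^ 2 := by nlinarith [sq_nonneg (σ - 2 * μ)]

lemma amgm' (σ μ : ℤ) : 4 * (μ * (σ - μ) - μ) ≤ (σ - 1) ^ 2 := by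
  nlinarith [sq_nonneg (σ - 1 - 2 * μ)]

lemma big_sigma {X z σ : ℤ} (h0 : 0 ≤ σ) (h1 : X * (X + 1) < z) (h2 : 4 * z ≤ σ ^ 2) :
    2 * X + 1 ≤ σ := by
  apply le_of_sq _ _ h0; nlinarith

lemma mono_succ {X Y z : ℤ} (h0 : 0 ≤ X) (h1 : X ≤ Y) (h2 : Y * (Y + 1) < z) : X * (X + 1) < z := by
  nlinarith

/-- a bounded left translate lies in the good set -/
def NearC (Δ K X Y z : ℤ) : Prop :=
  ∃ α β γ : ℤ, |α| ≤ K ∧ |β| ≤ K ∧ |γ| ≤ K ∧ Zc Δ (X + α) (Y + β) (z + γ + α * Y)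

lemma near_central {Δ K X Y z z' : ℤ} (hK : 0 ≤ K) (h1 : z - K ≤ z') (h2 : z' ≤ z + K)
    (h : Zc Δ X Y z') : NearC Δ K X Y z :=
  ⟨0, 0, z' - z, by simpa, by simpa, abs_le.2 ⟨by omega, by omega⟩, by simpa using h⟩

section
variable {a : ℕ} {Δ t Q : ℤ} (hΔ : 0 ≤ Δ) (ht : Δ = 9 ^ a * (9 * t + 1)) (hQ : Q = 9 ^ a * 72)
include hΔ ht hQ

lemma cover_x (X Y z x y : ℤ) (hx : X = Q * x) (hy : Y = Q * y) (hX : 100 * Q ≤ X)
    (hY : 100 * Q ≤ Y) (hz : X * Y ≤ 2 * z)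
    (hc : (X ≤ Y ∧ z ≤ X * Y) ∨ (Y ≤ X ∧ X * Y < z ∧ z ≤ X * (X + 1))) :
    NearC Δ (10 * Q) X Y z := by
  have hE : (1 : ℤ) ≤ 9 ^ a := one_le_pow₀ (by norm_num)
  have hQ72 : 72 ≤ Q := by omega
  obtain ⟨z', k, p1, p2, -, -, p5⟩ := pick Q (z - Q) z z (-9 ^ a) (by omega) (by omega)
    (by omega) le_rfl
  obtain ⟨B, b0, b1⟩ := ceil_ex X z' (by omega)
  have hT : X * B - z' = 9 ^ a * (72 * (x * B - k) + 1) := by
    rw [p5, hx, hQ]; ring
  have hx' : X = 9 ^ a * (72 * x) := by rw [hx, hQ]; ring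
  have hBlo : Y - 2 ≤ 2 * B := le_cancel (X := X) (by omega) (by linarith)
  rcases hc with ⟨c1, c2⟩ | ⟨c1, c2, c3⟩
  · have hB : B < Y + 1 := lt_cancel (X := X) (by omega) (by linarith)
    exact near_central (by omega) (by omega) (by omega)
      (R1 hΔ ht X Y z' B x _ (by omega) hx' hT b0 b1 (by omega)
        (le_sq' 80 (by omega) (by omega) (by omega)) (Or.inl (by omega)))
  · have hB : B < X + 2 := lt_cancel (X := X) (by omega) (by linarith)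
    have hBY : Y - 1 < B := lt_cancel (X := X) (by omega) (by linarith)
    rcases le_or_gt X (4 * B) with fat | thin
    · exact near_central (by omega) (by omega) (by omega)
        (R1 hΔ ht X Y z' B x _ (by omega) hx' hT b0 b1 (by omega)
          (le_sq' 80 (by omega) (by omega) (by omega))
          (Or.inr (Or.inl (by omega))))
    · rcases le_or_gt (B - Y) (3 * Q) with sm | lg
      · obtain ⟨A, a0, a1⟩ := ceil_ex (Y + 3 * Q) z' (by omega)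
        have m1 : X * B ≤ X * (Y + 3 * Q) := mul_le_mul_of_nonneg_left (by omega) (by omega)
        have hA : A < X + 1 := lt_cancel (X := Y + 3 * Q) (by omega) (by linarith)
        have m2 : X * (Y + 3 * Q) ≤ X * (2 * (Y - 1)) :=
          mul_le_mul_of_nonneg_left (by omega) (by omega)
        have hA2 : X ≤ 2 * A := le_cancel (X := Y + 3 * Q) (by omega) (by linarith)
        refine ⟨0, 3 * Q, z' - z, by simp; omega, by rw [abs_of_nonneg] <;> omega,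
          abs_le.2 ⟨by omega, by omega⟩, ?_⟩
        rw [show z + (z' - z) + 0 * Y = z' by ring, add_zero]
        exact R2 hΔ ht X (Y + 3 * Q) z' A (y + 3) (A * (y + 3) - k) (by omega) (by omega)
          (by rw [hy, hQ]; ring) (by rw [p5, hy, hQ]; ring) (by linarith) (by linarith)
          (by omega) (le_sq' 4 (by omega) (by omega) (by omega)) (Or.inl (by omega))
      · obtain ⟨B₁, d0, d1⟩ := ceil_ex (X - 1) (z' - Y) (by omega)
        have e1 : B - 1 < B₁ := lt_cancel (X := X - 1) (by omega) (by linarith)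
        have e2 : B₁ < B + 2 := lt_cancel (X := X - 1) (by omega) (by linarith)
        obtain ⟨T, k₂, t1, t2, t3, t4, t5⟩ := pick Q 0 (X - 2) ((X - 1) * B₁ - (z' - Y)) (9 ^ a)
          (by omega) (by omega) d0 (by omega)
        obtain ⟨j, i, j1, j2, -, -, j5⟩ := pick Q (B₁ - Y - Q) (B₁ - Y) (B₁ - Y) 0 (by omega)
          (by omega) (by omega) le_rfl
        refine ⟨-1, B₁ - Y - j, (X - 1) * B₁ - T - z + Y, by simp; omega,
          abs_le.2 ⟨by omega, by omega⟩, abs_le.2 ⟨by omega, by omega⟩, ?_⟩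
        refine R4 hΔ ht _ _ _ B₁ x i k₂ (by omega) (by rw [hx, hQ]; ring)
          (by rw [hQ] at j5; linear_combination j5) (by omega) (by omega)
          (by rw [hQ] at t5; linear_combination t5) (by linarith) (by linarith)

lemma cover_y (X Y z x y : ℤ) (hx : X = Q * x) (hy : Y = Q * y) (hX : 100 * Q ≤ X)
    (hY : 100 * Q ≤ Y) (hz : X * Y ≤ 2 * z)
    (hc : (Y ≤ X ∧ z ≤ X * Y) ∨ (X ≤ Y ∧ X * Y < z ∧ z ≤ Y * (Y + 1))) :
    NearC Δ (10 * Q) X Y z := by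
  have hE : (1 : ℤ) ≤ 9 ^ a := one_le_pow₀ (by norm_num)
  have hQ72 : 72 ≤ Q := by omega
  obtain ⟨z', k, p1, p2, -, -, p5⟩ := pick Q (z - Q) z z (-9 ^ a) (by omega) (by omega)
    (by omega) le_rfl
  obtain ⟨A, b0, b1⟩ := ceil_ex Y z' (by omega)
  have hT : A * Y - z' = 9 ^ a * (72 * (y * A - k) + 1) := by
    rw [p5, hy, hQ]; ring
  have hy' : Y = 9 ^ a * (72 * y) := by rw [hy, hQ]; ring
  have hAlo : X - 2 ≤ 2 * A := le_cancel (X := Y) (by omega) (by linarith)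
  rcases hc with ⟨c1, c2⟩ | ⟨c1, c2, c3⟩
  · have hA : A < X + 1 := lt_cancel (X := Y) (by omega) (by linarith)
    exact near_central (by omega) (by omega) (by omega)
      (R2 hΔ ht X Y z' A y _ (by omega) (by omega) hy' hT (by linarith) (by linarith) (by omega)
        (le_sq' 4 (by omega) (by omega) (by omega)) (Or.inl (by omega)))
  · have hA : A < Y + 2 := lt_cancel (X := Y) (by omega) (by linarith)
    rcases le_or_gt Y (4 * A) with fat | thin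
    · exact near_central (by omega) (by omega) (by omega)
        (R2 hΔ ht X Y z' A y _ (by omega) (by omega) hy' hT (by linarith) (by linarith) (by omega)
          (le_sq' 4 (by omega) (by omega) (by omega)) (Or.inr (Or.inl (by omega))))
    · obtain ⟨A₁, d0, d1⟩ := ceil_ex (Y - 1) z (by omega)
      have e1 : X < A₁ := lt_cancel (X := Y - 1) (by omega) (by linarith)
      have e2 : A₁ < A + 2 := lt_cancel (X := Y - 1) (by omega) (by linarith)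
      obtain ⟨T, k₂, t1, t2, t3, t4, t5⟩ := pick Q 0 (Y - 2) ((Y - 1) * A₁ - z) (9 ^ a)
        (by omega) (by omega) d0 (by omega)
      obtain ⟨A₀, i, j1, j2, -, -, j5⟩ := pick Q A₁ (A₁ + Q) A₁ 0 (by omega)
        (by omega) le_rfl (by omega)
      refine ⟨A₀ - A₁, -1, (Y - 1) * A₁ - T - z - (A₀ - A₁), abs_le.2 ⟨by omega, by omega⟩,
        by simp; omega, abs_le.2 ⟨by omega, by omega⟩, ?_⟩
      refine R5 hΔ ht _ _ _ A₀ y i k₂ (by omega) (by rw [hy, hQ]; ring)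
        (by rw [hQ] at j5; linear_combination j5) (by omega) (by omega) (by omega)
        (by rw [hQ] at t5; linear_combination t5) (by linarith) (by linarith)

lemma cover_big (X Y z x y : ℤ) (hx : X = Q * x) (hy : Y = Q * y) (hX : 100 * Q ≤ X)
    (hY : 100 * Q ≤ Y) (hzX : X * (X + 1) < z) (hzY : Y * (Y + 1) < z) :
    NearC Δ (10 * Q) X Y z := by
  have hE : (1 : ℤ) ≤ 9 ^ a := one_le_pow₀ (by norm_num)
  have hQ72 : 72 ≤ Q := by omega
  have hz0 : 0 < z := lt_of_le_of_lt (mul_nonneg (by omega) (by omega)) hzX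
  obtain ⟨σ, hσ0, hlo, hhi⟩ : ∃ σ : ℤ, 0 ≤ σ ∧ (σ - 1) ^ 2 < 4 * z ∧ 4 * z ≤ σ ^ 2 := by
    obtain ⟨n, hn⟩ : ∃ n : ℕ, (n : ℤ) = 4 * z - 1 := ⟨(4 * z - 1).toNat, by omega⟩
    have h1 := Nat.sqrt_le' n
    have h2 := Nat.lt_succ_sqrt' n
    have h1' : ((Nat.sqrt n : ℕ) : ℤ) ^ 2 ≤ n := by exact_mod_cast h1
    have h2' : (n : ℤ) < ((Nat.sqrt n : ℕ) + 1) ^ 2 := by exact_mod_cast h2
    exact ⟨(Nat.sqrt n : ℕ) + 1, by positivity, by rw [add_sub_cancel_right]; omega, by omega⟩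
  have hσX : 2 * X + 1 ≤ σ := big_sigma hσ0 hzX hhi
  have hσY : 2 * Y + 1 ≤ σ := big_sigma hσ0 hzY hhi
  obtain ⟨L, hL1, hL2⟩ : ∃ L, (σ - 1) ^ 2 < 4 * L ∧ 4 * L ≤ (σ - 1) ^ 2 + 4 :=
    ⟨(σ - 1) ^ 2 / 4 + 1, by omega, by omega⟩
  obtain ⟨U, hU1, hU2⟩ : ∃ U, 4 * U ≤ σ ^ 2 ∧ σ ^ 2 < 4 * U + 4 :=
    ⟨σ ^ 2 / 4, by omega, by omega⟩
  have hsq : σ ^ 2 = (σ - 1) ^ 2 + 2 * σ - 1 := by ring
  have hLU : L + 10 * Q ≤ U := by omega
  have hLz : L ≤ z := by omega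
  have hzU : z ≤ U := by omega
  obtain ⟨μ, hμ⟩ : ∃ μ, (Y ≤ X ∧ μ = Y) ∨ (X ≤ Y ∧ μ = X) := by
    rcases le_total X Y with h | h
    · exact ⟨X, Or.inr ⟨h, rfl⟩⟩
    · exact ⟨Y, Or.inl ⟨h, rfl⟩⟩
  obtain ⟨θ, hθ⟩ : ∃ θ, θ = μ * (σ - μ) := ⟨_, rfl⟩
  have hθU : θ ≤ U := by
    have : 4 * θ ≤ σ ^ 2 := by rw [hθ]; exact amgm σ μ
    omega
  -- the upper part
  have up : ∀ p w : ℤ, L ≤ p → θ ≤ p → p + Q ≤ U → p ≤ w → w ≤ U → z - 2 * Q ≤ w →
      w ≤ z + 2 * Q → NearC Δ (10 * Q) X Y z := by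
    intro p w u1 u2 u3 u4 u5 u6 u7
    obtain ⟨ρ, hρ⟩ : ∃ ρ : ℤ, (σ % 2 = 1 ∧ ∃ e, σ ^ 2 - 4 * ρ = 9 ^ a * (72 * e + 1)) ∨
        (σ % 2 = 0 ∧ σ ^ 2 - 4 * ρ = 4 * 9 ^ a) := by
      rcases Int.emod_two_eq_zero_or_one σ with h | h
      · obtain ⟨s, rfl⟩ : ∃ s, σ = 2 * s := ⟨σ / 2, by omega⟩
        exact ⟨s ^ 2 - 9 ^ a, Or.inr ⟨h, by ring⟩⟩
      · obtain ⟨s, rfl⟩ : ∃ s, σ = 2 * s + 1 := ⟨σ / 2, by omega⟩
        obtain ⟨e, he⟩ : (4 : ℤ) ∣ 9 ^ a - 1 :=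
          (show (4 : ℤ) ∣ 9 - 1 by norm_num).trans (sub_one_dvd_pow_sub_one 9 a)
        exact ⟨s ^ 2 + s - e, Or.inl ⟨h, 0, by linear_combination -he⟩⟩
    obtain ⟨z', k, p1, p2, p3, p4, p5⟩ := pick Q p U w ρ (by omega) u3 u4 u5
    have hμ' : (Y ≤ X ∧ Y * (σ - Y) ≤ z') ∨ (X ≤ Y ∧ X * (σ - X) ≤ z') := by
      rcases hμ with ⟨h, rfl⟩ | ⟨h, rfl⟩
      · exact Or.inl ⟨h, by omega⟩
      · exact Or.inr ⟨h, by omega⟩
    refine near_central (z' := z') (by omega) (by omega) (by omega) ?_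
    rcases hρ with ⟨h, e, he⟩ | ⟨h, he⟩
    · exact R3 hΔ ht X Y z' σ (e - 4 * k) (by omega) (by omega) (by omega) (by omega) (by omega)
        (by omega) (by omega) hμ' (Or.inl ⟨h, by rw [p5, hQ]; linear_combination he⟩)
    · exact R3 hΔ ht X Y z' σ (-k) (by omega) (by omega) (by omega) (by omega) (by omega)
        (by omega) (by omega) hμ' (Or.inr ⟨h, by rw [p5, hQ]; linear_combination he⟩)
  -- the lower part
  have down : ∀ w : ℤ, L + Q ≤ θ → L ≤ w → w ≤ θ → z - 2 * Q ≤ w →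
      w ≤ z + 2 * Q → NearC Δ (10 * Q) X Y z := by
    intro w u1 u2 u3 u4 u5
    obtain ⟨z', k, p1, p2, p3, p4, p5⟩ := pick Q L θ w (-9 ^ a) (by omega) u1 u2 u3
    refine near_central (z' := z') (by omega) (by omega) (by omega) ?_
    have hlt : θ - z' < μ := by
      have : 4 * (θ - μ) ≤ (σ - 1) ^ 2 := by rw [hθ]; exact amgm' σ μ
      omega
    rcases hμ with ⟨h, rfl⟩ | ⟨h, rfl⟩
    · exact R2 hΔ ht X μ z' (σ - μ) y ((σ - μ) * y - k) (by omega) (by omega)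
        (by rw [hy, hQ]; ring) (by rw [p5, hQ]; linear_combination (σ - μ) * hy + (σ - μ) * y * hQ)
        (by linarith) (by linarith) (by omega) (le_sq' 20 (by omega) (by omega) (by omega))
        (Or.inr (Or.inr (by rw [show μ + (σ - μ) - 1 = σ - 1 by ring]; omega)))
    · exact R1 hΔ ht μ Y z' (σ - μ) x ((σ - μ) * x - k) (by omega)
        (by rw [hx, hQ]; ring) (by rw [p5, hQ]; linear_combination (σ - μ) * hx + (σ - μ) * x * hQ)
        (by linarith) (by linarith) (by omega) (le_sq' 20 (by omega) (by omega) (by omega))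
        (Or.inr (Or.inr (by rw [show μ + (σ - μ) - 1 = σ - 1 by ring]; omega)))
  rcases le_or_gt θ L with c1 | c1
  · exact up L z le_rfl c1 (by omega) hLz hzU (by omega) (by omega)
  · rcases le_or_gt θ z with c2 | c2
    · rcases le_or_gt (θ + Q) U with c3 | c3
      · exact up θ z c1.le le_rfl c3 c2 hzU (by omega) (by omega)
      · exact down θ (by omega) c1.le le_rfl (by omega) (by omega)
    · rcases le_or_gt (L + Q) θ with c3 | c3
      · exact down z c3 hLz c2.le (by omega) (by omega)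
      · exact up θ θ c1.le le_rfl (by omega) le_rfl hθU (by omega) (by omega)

lemma cover (X Y z x y : ℤ) (hx : X = Q * x) (hy : Y = Q * y) (hX : 100 * Q ≤ X)
    (hY : 100 * Q ≤ Y) (hz : X * Y ≤ 2 * z) : NearC Δ (10 * Q) X Y z := by
  have hE : (1 : ℤ) ≤ 9 ^ a := one_le_pow₀ (by norm_num)
  rcases le_or_gt z (X * Y) with h | h
  · rcases le_total X Y with h1 | h1
    · exact cover_x hΔ ht hQ X Y z x y hx hy hX hY hz (Or.inl ⟨h1, h⟩)
    · exact cover_y hΔ ht hQ X Y z x y hx hy hX hY hz (Or.inl ⟨h1, h⟩)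
  · rcases le_total X Y with h1 | h1
    · rcases le_or_gt z (Y * (Y + 1)) with h2 | h2
      · exact cover_y hΔ ht hQ X Y z x y hx hy hX hY hz (Or.inr ⟨h1, h, h2⟩)
      · exact cover_big hΔ ht hQ X Y z x y hx hy hX hY (mono_succ (by omega) h1 h2) h2
    · rcases le_or_gt z (X * (X + 1)) with h2 | h2
      · exact cover_x hΔ ht hQ X Y z x y hx hy hX hY hz (Or.inr ⟨h1, h, h2⟩)
      · exact cover_big hΔ ht hQ X Y z x y hx hy hX hY h2 (mono_succ (by omega) h1 h2)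

end

end Pool.Agent.Lib.MP_3614fc_al
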