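import Mathlib
import Pool.Agent.Lib.MP_3614fc_al.Cover

namespace Pool.Agent.Lib.MP_3614fc_al

open Hs

/-- the good set: some eight-slot pattern contains a geodesic for `g` but not for a central
translate of `g` by a multiple of `M`, which is not shorter -/
def Zs (M C : ℤ) (g : Hs) : Prop :=
  ∃ δ : ℤ, M ∣ δ ∧ |δ| ≤ C ∧ ∃ π : List Hs, π.length = 8 ∧ (∀ p ∈ π, p = 1 ∨ P p) ∧ ∃ ℓ : ℤ,
    PW π g ℓ ∧ LBP g ℓ ∧ LBP (cz δ * g) ℓ ∧ ¬ PW π (cz δ * g) ℓ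

/-- a symmetry of the generating set -/
structure Sym (θ : Hs →* Hs) : Prop where
  inv : ∀ g, θ (θ g) = g
  gen : ∀ p, P p → P (θ p)
  cen : ∀ δ, θ (cz δ) = cz (-δ)

lemma LBP.map {θ : Hs →* Hs} (hθ : Sym θ) {g : Hs} {ℓ : ℤ} (h : LBP g ℓ) : LBP (θ g) ℓ := by
  intro l hl hg
  have := h (l.map θ) (by
    intro p hp
    obtain ⟨q, hq, rfl⟩ := List.mem_map.1 hp
    exact hθ.gen q (hl q hq)) (by rw [← map_list_prod, hg, hθ.inv])
  simpa using this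

lemma Zs.map {θ : Hs →* Hs} (hθ : Sym θ) {M C : ℤ} {g : Hs} (h : Zs M C g) : Zs M C (θ g) := by
  obtain ⟨δ, h1, h2, π, h3, h4, ℓ, h5, h6, h7, h8⟩ := h
  refine ⟨-δ, h1.neg_right, by simpa using h2, π.map θ, by simpa using h3, ?_, ℓ, h5.map θ,
    h6.map hθ, ?_, fun h => h8 ?_⟩
  · intro p hp
    obtain ⟨q, hq, rfl⟩ := List.mem_map.1 hp
    rcases h4 q hq with rfl | h
    · left; exact map_one θ
    · right; exact hθ.gen q h
  · have := h7.map hθ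
    rwa [map_mul, hθ.cen] at this
  · have := h.map θ
    rw [map_mul, hθ.cen, neg_neg, hθ.inv, List.map_map] at this
    have e : (θ ∘ θ : Hs → Hs) = id := funext hθ.inv
    rwa [e, List.map_id] at this

/-- reflection in the first coordinate -/
def rx : Hs →* Hs where
  toFun g := ⟨-g.x, g.y, -g.z⟩
  map_one' := by ext <;> simp
  map_mul' a b := by ext <;> simp <;> ring

/-- reflection in the second coordinate -/
def ry : Hs →* Hs where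
  toFun g := ⟨g.x, -g.y, -g.z⟩
  map_one' := by ext <;> simp
  map_mul' a b := by ext <;> simp <;> ring

/-- exchange of the coordinates -/
def sw : Hs →* Hs where
  toFun g := ⟨g.y, g.x, g.x * g.y - g.z⟩
  map_one' := by ext <;> simp
  map_mul' a b := by ext <;> simp <;> ring

lemma sym_rx : Sym rx where
  inv g := by ext <;> simp [rx]
  gen p h := by
    obtain ⟨h1, h2, h3⟩ := h
    refine ⟨by simpa [rx] using h1, ?_, ?_⟩ <;>
      simp only [rx, MonoidHom.coe_mk, OneHom.coe_mk]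
    · omega
    · linarith
  cen δ := by ext <;> simp [rx, cz]

lemma sym_ry : Sym ry where
  inv g := by ext <;> simp [ry]
  gen p h := by
    obtain ⟨h1, h2, h3⟩ := h
    refine ⟨by simpa [ry] using h1, ?_, ?_⟩ <;>
      simp only [ry, MonoidHom.coe_mk, OneHom.coe_mk]
    · omega
    · linarith
  cen δ := by ext <;> simp [ry, cz]

lemma sym_sw : Sym sw where
  inv g := by ext <;> simp [sw, mul_comm]
  gen p h := by
    obtain ⟨h1, h2, h3⟩ := h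
    refine ⟨by simpa [sw, add_comm] using h1, ?_, ?_⟩ <;>
      simp only [sw, MonoidHom.coe_mk, OneHom.coe_mk]
    · omega
    · linarith
  cen δ := by ext <;> simp [sw, cz]

/-- some left translate by an element of `E` is good -/
def Near (M C : ℤ) (E : Set Hs) (ξ : Hs) : Prop := ∃ η ∈ E, Zs M C (η * ξ)

lemma Near.sym {θ : Hs →* Hs} (hθ : Sym θ) {M C : ℤ} {E : Set Hs} {ξ : Hs}
    (h : Near M C E (θ ξ)) : Near M C (E ∪ θ '' E) ξ := by
  obtain ⟨η, h1, h2⟩ := h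
  refine ⟨θ η, Or.inr ⟨η, h1, rfl⟩, ?_⟩
  have := h2.map hθ
  rwa [map_mul, hθ.inv] at this

lemma Near.left {M C : ℤ} {E E' : Set Hs} {ξ : Hs} (h : Near M C E ξ) : Near M C (E ∪ E') ξ := by
  obtain ⟨η, h1, h2⟩ := h
  exact ⟨η, Or.inl h1, h2⟩

lemma box_finite (K : ℤ) : {t : ℤ × ℤ × ℤ | |t.1| ≤ K ∧ |t.2.1| ≤ K ∧ |t.2.2| ≤ K}.Finite := by
  refine ((Set.finite_Icc (-K) K).prod ((Set.finite_Icc (-K) K).prod
    (Set.finite_Icc (-K) K))).subset ?_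
  rintro t ⟨h1, h2, h3⟩
  exact ⟨abs_le.1 h1, abs_le.1 h2, abs_le.1 h3⟩

lemma exists_delta (M : ℕ) (hM : 0 < M) :
    ∃ (a : ℕ) (Δ t : ℤ), 0 ≤ Δ ∧ Δ = 9 ^ a * (9 * t + 1) ∧ (M : ℤ) ∣ Δ := by
  obtain ⟨c, m, hm, rfl⟩ := Nat.exists_eq_pow_mul_and_not_dvd hM.ne' 3 (by norm_num)
  have h9 : m ^ 6 % 9 = 1 := by
    have h1 : m % 9 < 9 := Nat.mod_lt _ (by norm_num)
    rw [Nat.pow_mod]
    have h2 : ¬ 3 ∣ m % 9 := by omega
    generalize m % 9 = r at h1 h2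
    interval_cases r <;> simp_all
  refine ⟨3 * c, ((3 ^ c * m : ℕ) : ℤ) ^ 6, (m ^ 6 / 9 : ℕ), by positivity, ?_,
    dvd_pow_self _ (by norm_num)⟩
  have h1 : (m : ℤ) ^ 6 = 9 * ((m ^ 6 / 9 : ℕ) : ℤ) + 1 := by
    have : m ^ 6 = 9 * (m ^ 6 / 9) + 1 := by omega
    exact_mod_cast this
  rw [← h1]
  push_cast
  rw [mul_pow, ← pow_mul, show (9 : ℤ) = 3 ^ 2 by norm_num, ← pow_mul]
  congr 2
  ring

lemma far_multiple (N K x : ℤ) (hN : 0 < N) (hK : 0 ≤ K) :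
    ∃ α u : ℤ, |α| ≤ N * (K + 1) ∧ x + α = N * u ∧ (K ≤ u ∨ u ≤ -K) := by
  have a1 := Int.emod_nonneg x hN.ne'
  have a2 := Int.emod_lt_of_pos x hN
  have a3 := Int.emod_add_mul_ediv x N
  have a4 : 0 ≤ N * K := mul_nonneg hN.le hK
  rcases le_or_gt 0 (x / N) with h | h
  · exact ⟨N * K - x % N, x / N + K, abs_le.2 ⟨by linarith, by linarith⟩, by linarith,
      Or.inl (by omega)⟩
  · exact ⟨-(N * K) - x % N, x / N - K, abs_le.2 ⟨by linarith, by linarith⟩, by linarith,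
      Or.inr (by omega)⟩

theorem key (M : ℕ) (hM : 0 < M) :
    ∃ (C : ℤ) (E : Set Hs), E.Finite ∧ ∀ ξ, ∃ η ∈ E, Zs M C (η * ξ) := by
  obtain ⟨a, Δ, t, hΔ, ht, hMΔ⟩ := exists_delta M hM
  obtain ⟨Q, hQ⟩ : ∃ Q : ℤ, Q = 9 ^ a * 72 := ⟨_, rfl⟩
  have hQ0 : 0 < Q := by rw [hQ]; positivity
  let C : ℤ := 3465 ^ 2 * (4 * Δ)
  have hZ : ∀ X Y z, Zc Δ X Y z → Zs M C (co X Y z) := by
    rintro X Y z ⟨κ, hκ, π, h1, h2, ℓ, h3, h4, h5, h6⟩
    have e : cz (3465 ^ 2 * (κ * Δ)) * co X Y z = co X Y (z + κ * Δ) := by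
      ext <;> simp [cz, co]; ring
    refine ⟨3465 ^ 2 * (κ * Δ), (hMΔ.mul_left κ).mul_left _, ?_, π, h1, h2, ℓ, h3, h4,
      by rwa [e], by rwa [e]⟩
    rw [abs_of_nonneg (by rcases hκ with rfl | rfl <;> positivity)]
    rcases hκ with rfl | rfl <;> simp only [C] <;> linarith
  let E₁ : Set Hs := (fun t : ℤ × ℤ × ℤ => co t.1 t.2.1 t.2.2) ''
    {t : ℤ × ℤ × ℤ | |t.1| ≤ 10 * Q ∧ |t.2.1| ≤ 10 * Q ∧ |t.2.2| ≤ 10 * Q}
  have f₁ : E₁.Finite := (box_finite _).image _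
  have s₁ : ∀ x y z, 100 ≤ x → 100 ≤ y → Q * x * (Q * y) ≤ 2 * z →
      Near M C E₁ (co (Q * x) (Q * y) z) := by
    intro x y z hx hy hz
    obtain ⟨α, β, γ, h1, h2, h3, h4⟩ := cover hΔ ht hQ (Q * x) (Q * y) z x y rfl rfl
      (by nlinarith) (by nlinarith) hz
    refine ⟨co α β γ, ⟨(α, β, γ), ⟨h1, h2, h3⟩, rfl⟩, ?_⟩
    convert hZ _ _ _ h4 using 1
    ext <;> simp [co] <;> ring
  let E₂ := E₁ ∪ sw '' E₁
  have f₂ : E₂.Finite := f₁.union (f₁.image _)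
  have s₂ : ∀ x y z, 100 ≤ x → 100 ≤ y → Near M C E₂ (co (Q * x) (Q * y) z) := by
    intro x y z hx hy
    rcases le_total (Q * x * (Q * y)) (2 * z) with h | h
    · exact (s₁ x y z hx hy h).left
    · apply Near.sym sym_sw
      convert s₁ y x (Q * x * (Q * y) - z) hy hx (by linarith) using 1
      ext <;> simp [co, sw]; ring
  let E₃ := E₂ ∪ ry '' E₂
  have f₃ : E₃.Finite := f₂.union (f₂.image _)
  have s₃ : ∀ x y z, 100 ≤ x → (100 ≤ y ∨ y ≤ -100) → Near M C E₃ (co (Q * x) (Q * y) z) := by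
    intro x y z hx hy
    rcases hy with h | h
    · exact (s₂ x y z hx h).left
    · apply Near.sym sym_ry
      convert s₂ x (-y) (-z) hx (by linarith) using 1
      ext <;> simp [co, ry]
  let E₄ := E₃ ∪ rx '' E₃
  have f₄ : E₄.Finite := f₃.union (f₃.image _)
  have s₄ : ∀ x y z, (100 ≤ x ∨ x ≤ -100) → (100 ≤ y ∨ y ≤ -100) →
      Near M C E₄ (co (Q * x) (Q * y) z) := by
    intro x y z hx hy
    rcases hx with h | h
    · exact (s₃ x y z h hy).left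
    · apply Near.sym sym_rx
      convert s₃ (-x) y (-z) (by linarith) hy using 1
      ext <;> simp [co, rx]
  let K : ℤ := 3465 * Q * (100 + 1) + 3465 ^ 2 * (0 + 1)
  let E₀ : Set Hs := (fun t : ℤ × ℤ × ℤ => (⟨t.1, t.2.1, t.2.2⟩ : Hs)) ''
    {t : ℤ × ℤ × ℤ | |t.1| ≤ K ∧ |t.2.1| ≤ K ∧ |t.2.2| ≤ K}
  have f₀ : E₀.Finite := (box_finite _).image _
  refine ⟨C, Set.image2 (· * ·) E₄ E₀, f₄.image2 _ f₀, fun ξ => ?_⟩
  obtain ⟨α, x, a1, a2, a3⟩ := far_multiple (3465 * Q) 100 ξ.x (by positivity) (by norm_num)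
  obtain ⟨β, y, b1, b2, b3⟩ := far_multiple (3465 * Q) 100 ξ.y (by positivity) (by norm_num)
  obtain ⟨γ, z, c1, c2, -⟩ := far_multiple (3465 ^ 2) 0 (ξ.z + α * ξ.y) (by positivity) le_rfl
  obtain ⟨η, h1, h2⟩ := s₄ x y z a3 b3
  have hK : 0 < 3465 * Q * (100 + 1) := by positivity
  refine ⟨η * ⟨α, β, γ⟩, ⟨η, h1, ⟨α, β, γ⟩, ⟨(α, β, γ), ⟨?_, ?_, ?_⟩, rfl⟩, rfl⟩, ?_⟩
  · simp only [K]; linarith
  · simp only [K]; linarith
  · simp only [K]; linarith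
  · rw [mul_assoc]
    convert h2 using 2
    ext <;> simp only [co, mul_x, mul_y, mul_z] <;> linarith

end Pool.Agent.Lib.MP_3614fc_al
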