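import Mathlib
import Pool.Agent.Lib.MP_3614fc_al.Heis

namespace Pool.Agent.Lib.MP_3614fc_al

open Hs Equiv

/-- the generators of the Heisenberg group, as a type -/
abbrev PP := {p : Hs // P p}

instance : Finite PP := P_finite.to_subtype

/-- colours -/
abbrev J := Option PP

noncomputable instance : Fintype PP := Fintype.ofFinite _
noncomputable instance : DecidableEq PP := Classical.decEq _

/-- the group element of a colour -/
def col : J → Hs
  | none => 1
  | some p => p.1

/-- labels of switches -/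
abbrev T := J × J

/-- the clock set -/
abbrev Om (R : ℕ) := (Fin R → T) × Fin (R + 1)

/-- the action of a switch on the clock set -/
noncomputable def rho {R : ℕ} (k : Fin R) (t : T) : Perm (Om R) :=
  Function.Involutive.toPerm
    (fun a => (a.1, if a.1 k = t then swap k.castSucc k.succ a.2 else a.2))
    (fun a => by by_cases h : a.1 k = t <;> simp [h])

lemma rho_apply {R : ℕ} (k : Fin R) (t : T) (a : Om R) :
    rho k t a = (a.1, if a.1 k = t then swap k.castSucc k.succ a.2 else a.2) := rfl

lemma rho_mul_self {R : ℕ} (k : Fin R) (t : T) : rho k t * rho k t = 1 := by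
  ext1 a
  by_cases h : a.1 k = t <;> simp [rho_apply, h]

/-- the ambient group: a permutational wreath product times a finite symmetric group -/
@[ext] structure Gam (R : ℕ) where
  φ : J → Hs
  f : Perm J
  ω : Perm (Om R)

namespace Gam

variable {R : ℕ}

instance : Mul (Gam R) := ⟨fun a b => ⟨fun j => a.φ j * b.φ (a.f⁻¹ j), a.f * b.f, a.ω * b.ω⟩⟩
instance : One (Gam R) := ⟨⟨1, 1, 1⟩⟩
instance : Inv (Gam R) := ⟨fun a => ⟨fun j => (a.φ (a.f j))⁻¹, a.f⁻¹, a.ω⁻¹⟩⟩

@[simp] lemma mul_φ (a b : Gam R) (j : J) : (a * b).φ j = a.φ j * b.φ (a.f⁻¹ j) := rfl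
@[simp] lemma mul_f (a b : Gam R) : (a * b).f = a.f * b.f := rfl
@[simp] lemma mul_ω (a b : Gam R) : (a * b).ω = a.ω * b.ω := rfl
@[simp] lemma one_φ (j : J) : (1 : Gam R).φ j = 1 := rfl
@[simp] lemma one_f : (1 : Gam R).f = 1 := rfl
@[simp] lemma one_ω : (1 : Gam R).ω = 1 := rfl
@[simp] lemma inv_φ (a : Gam R) (j : J) : a⁻¹.φ j = (a.φ (a.f j))⁻¹ := rfl
@[simp] lemma inv_f (a : Gam R) : a⁻¹.f = a.f⁻¹ := rfl
@[simp] lemma inv_ω (a : Gam R) : a⁻¹.ω = a.ω⁻¹ := rfl

lemma ext' {a b : Gam R} (h1 : ∀ j, a.φ j = b.φ j) (h2 : a.f = b.f) (h3 : a.ω = b.ω) : a = b :=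
  Gam.ext (funext h1) h2 h3

instance : Group (Gam R) where
  mul_assoc a b c := ext' (fun j => by simp [mul_assoc]) (by simp [mul_assoc]) (by simp [mul_assoc])
  one_mul a := ext' (fun j => by simp) (by simp) (by simp)
  mul_one a := ext' (fun j => by simp) (by simp) (by simp)
  inv_mul_cancel a := ext' (fun j => by simp) (by simp) (by simp)

/-- the base group -/
def base : (J → Hs) →* Gam R where
  toFun φ := ⟨φ, 1, 1⟩
  map_one' := rfl
  map_mul' a b := ext' (fun j => by simp) (by simp) (by simp)

@[simp] lemma base_φ (φ : J → Hs) : (base φ : Gam R).φ = φ := rfl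
@[simp] lemma base_f (φ : J → Hs) : (base φ : Gam R).f = 1 := rfl
@[simp] lemma base_ω (φ : J → Hs) : (base φ : Gam R).ω = 1 := rfl

end Gam

open Gam

/-- letters: moves and switches -/
inductive Let (R : ℕ)
  | mv (p : PP) (ε : Bool)
  | sw (k : Fin R) (t : T)

variable {R : ℕ}

instance : Finite (Let R) :=
  Finite.of_surjective (fun a : (PP × Bool) ⊕ (Fin R × T) =>
    match a with
    | .inl a => Let.mv a.1 a.2
    | .inr a => Let.sw a.1 a.2) (by
      rintro (⟨p, ε⟩ | ⟨k, t⟩)
      · exact ⟨.inl (p, ε), rfl⟩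
      · exact ⟨.inr (k, t), rfl⟩)

/-- the group element of a letter -/
noncomputable def ev : Let R → Gam R
  | .mv p ε => base (Pi.mulSingle (some p) (if ε then p.1 else p.1⁻¹))
  | .sw k t => ⟨1, swap t.1 t.2, rho k t⟩

/-- the inverse letter -/
def linv : Let R → Let R
  | .mv p ε => .mv p (!ε)
  | .sw k t => .sw k t

lemma ev_linv (a : Let R) : ev (linv a) = (ev a)⁻¹ := by
  rcases a with ⟨p, ε⟩ | ⟨k, t⟩
  · simp only [ev, linv]
    rw [← map_inv, ← Pi.mulSingle_inv]
    cases ε <;> simp
  · symm
    apply inv_eq_of_mul_eq_one_right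
    exact ext' (fun j => by simp [ev, linv]) (by simp [ev, linv]) (by simp [ev, linv, rho_mul_self])

/-- the value of a word -/
noncomputable def val (L : List (Let R)) : Gam R := (L.map ev).prod

@[simp] lemma val_nil : val ([] : List (Let R)) = 1 := rfl
@[simp] lemma val_cons (a : Let R) (L : List (Let R)) : val (a :: L) = ev a * val L := by
  simp [val]
@[simp] lemma val_append (L L' : List (Let R)) : val (L ++ L') = val L * val L' := by
  simp [val]

lemma val_inv (L : List (Let R)) : val ((L.map linv).reverse) = (val L)⁻¹ := by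
  induction L with
  | nil => simp
  | cons a L ih => simp [ih, ev_linv]

/-- number of switches -/
def swc : List (Let R) → ℕ
  | [] => 0
  | .mv _ _ :: L => swc L
  | .sw _ _ :: L => swc L + 1

/-- the colours seen by a coordinate along a sequence of switches -/
noncomputable def cs : J → List T → List Hs
  | j, [] => [col j]
  | j, t :: ts => col j :: cs (swap t.1 t.2 j) ts

lemma cs_head (j : J) (ts : List T) : ∃ r, cs j ts = col j :: r := by
  cases ts <;> exact ⟨_, rfl⟩

lemma PW.head {p : Hs} {r : List Hs} {g : Hs} {n : ℤ} (h : PW (p :: r) g n) (e : ℤ) :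
    PW (p :: r) (p ^ e * g) (n + |e|) := by
  obtain ⟨m, g', h1, h2⟩ := h
  refine ⟨e + m, g', by rw [h1, zpow_add, mul_assoc], h2.mono ?_⟩
  have := abs_add_le e m
  linarith

lemma lower (L : List (Let R)) :
    ∃ n : J → ℕ, ∑ j, n j + swc L = L.length ∧
      (∀ j, ∃ l : List Hs, (∀ p ∈ l, P p) ∧ l.prod = (val L).φ j ∧ l.length = n j) ∧
      ∀ (w : Fin R → T) (i : Fin (R + 1)), (val L).ω (w, Fin.last R) = (w, i) →
        R ≤ swc L + i ∧ (R = swc L + i →
          ∀ j, PW (cs j ((List.ofFn w).drop i)) ((val L).φ j) (n j)) := by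
  induction L with
  | nil =>
    refine ⟨0, by simp [swc], fun j => ⟨[], by simp⟩, fun w i h => ?_⟩
    have hi : i = Fin.last R := by
      have := congrArg Prod.snd h
      simpa using this.symm
    subst hi
    refine ⟨by simp, fun _ j => ?_⟩
    rw [List.drop_of_length_le (by simp)]
    exact ⟨0, 1, by simp, rfl, by simp⟩
  | cons a L ih =>
    obtain ⟨n, h1, h2, h3⟩ := ih
    rcases a with ⟨p, ε⟩ | ⟨k, t⟩
    · refine ⟨n + Pi.single (some p) 1, ?_, fun j => ?_, fun w i h => ?_⟩
      · simp only [Pi.add_apply, Finset.sum_add_distrib, Finset.sum_pi_single', Finset.mem_univ,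
          if_true, swc, List.length_cons]
        omega
      · obtain ⟨l, a1, a2, a3⟩ := h2 j
        by_cases hj : j = some p
        · subst hj
          refine ⟨(if ε then p.1 else p.1⁻¹) :: l, ?_, by simp [ev, a2], by simp [a3]⟩
          intro q hq
          rcases List.mem_cons.1 hq with rfl | hq
          · cases ε
            · exact p.2.inv
            · exact p.2
          · exact a1 q hq
        · exact ⟨l, a1, by simp [ev, a2, hj], by simp [a3, hj]⟩
      · have h' : (val L).ω (w, Fin.last R) = (w, i) := by simpa [ev] using h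
        obtain ⟨b1, b2⟩ := h3 w i h'
        refine ⟨b1, fun hR j => ?_⟩
        have b3 := b2 hR j
        by_cases hj : j = some p
        · subst hj
          obtain ⟨r, hr⟩ := cs_head (some p) ((List.ofFn w).drop i)
          rw [hr] at b3 ⊢
          cases ε
          · simpa [ev, col] using b3.head (-1)
          · simpa [ev, col] using b3.head 1
        · simpa [ev, hj] using b3
    · refine ⟨fun j => n (swap t.1 t.2 j), ?_, fun j => ?_, fun w i h => ?_⟩
      · rw [Equiv.sum_comp (swap t.1 t.2) n]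
        simp only [swc, List.length_cons]
        omega
      · obtain ⟨l, a1, a2, a3⟩ := h2 (swap t.1 t.2 j)
        exact ⟨l, a1, by simp [ev, a2], a3⟩
      · obtain ⟨⟨w', i'⟩, hw'⟩ : ∃ a, (val L).ω (w, Fin.last R) = a := ⟨_, rfl⟩
        have h' : rho k t (w', i') = (w, i) := by rw [← hw']; simpa [ev] using h
        rw [rho_apply, Prod.mk.injEq] at h'
        obtain ⟨rfl, hi⟩ := h'
        simp only at hi
        obtain ⟨b1, b2⟩ := h3 w' i' hw'
        have hcase : (i' : ℕ) ≤ i ∨ ((i' : ℕ) = i + 1 ∧ (i : ℕ) = k ∧ w' k = t) := by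
          by_cases hk : w' k = t
          · rw [if_pos hk] at hi
            by_cases c1 : i' = k.castSucc
            · left; rw [← hi, c1]; simp
            · by_cases c2 : i' = k.succ
              · right; rw [← hi, c2]; simp [hk]
              · left; rw [← hi, swap_apply_of_ne_of_ne c1 c2]
          · rw [if_neg hk] at hi
            left; rw [hi]
        refine ⟨by simp only [swc]; omega, fun hR j => ?_⟩
        simp only [swc] at hR
        rcases hcase with c | ⟨c1, c2, c3⟩
        · omega
        · have b3 := b2 (by omega) (swap t.1 t.2 j)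
          have e : (List.ofFn w').drop i = t :: (List.ofFn w').drop i' := by
            rw [c1, List.drop_eq_getElem_cons (by simp [c2])]
            simp [c2, c3]
          rw [e]
          exact ⟨0, (val L).φ (swap t.1 t.2 j), by simp [ev], by simpa using b3⟩

/-- a switch with a natural number as time index -/
noncomputable def sg (R : ℕ) (i : ℕ) (t : T) : Gam R :=
  if h : i < R then ev (.sw ⟨i, h⟩ t) else 1

/-- the product of consecutive switches -/
noncomputable def walk (R : ℕ) : List T → ℕ → Gam R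
  | [], _ => 1
  | t :: ts, i => sg R i t * walk R ts (i + 1)

lemma walk_ω (w : Fin R → T) : ∀ (d i : ℕ) (h : i + d = R),
    (walk R ((List.ofFn w).drop i) i).ω (w, Fin.last R) = (w, ⟨i, by omega⟩) := by
  intro d
  induction d with
  | zero =>
    intro i h
    rw [List.drop_of_length_le (by simp; omega)]
    simp only [walk, one_ω, Perm.coe_one, id_eq, Prod.mk.injEq, true_and]
    ext; simp; omega
  | succ d ih =>
    intro i h
    have hi : i < R := by omega
    rw [List.drop_eq_getElem_cons (by simpa using hi)]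
    simp only [walk, mul_ω, Perm.coe_mul, Function.comp_apply]
    rw [ih (i + 1) (by omega)]
    simp only [sg, dif_pos hi, ev, rho_apply, List.getElem_ofFn, if_true, Prod.mk.injEq,
      true_and]
    exact swap_apply_right _ _

/-- the switches used by a list of services -/
def wsv (sv : List (J × J × ℤ)) : List T := sv.flatMap fun s => [(s.1, s.2.1), (s.1, s.2.1)]

/-- the base element produced by a list of services -/
noncomputable def Phi (sv : List (J × J × ℤ)) : J → Hs :=
  (sv.map fun s => (Pi.mulSingle s.1 (col s.2.1 ^ s.2.2) : J → Hs)).prod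

/-- the number of moves used by a list of services -/
def cost (sv : List (J × J × ℤ)) : ℤ := (sv.map fun s => |s.2.2|).sum

lemma move_word (q : J) (m : ℤ) : ∃ L : List (Let R),
    val L = base (Pi.mulSingle q (col q ^ m)) ∧ (L.length : ℤ) ≤ |m| := by
  rcases q with _ | p
  · exact ⟨[], by simp [col], by simp⟩
  · have key : ∀ (ε : Bool) (k : ℕ), val (List.replicate k (Let.mv p ε) : List (Let R)) =
        base (Pi.mulSingle (some p) ((if ε then p.1 else p.1⁻¹) ^ k)) := by
      intro ε k
      rw [Pi.mulSingle_pow, map_pow]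
      simp [val, ev]
    obtain ⟨k, rfl | rfl⟩ := m.eq_nat_or_neg
    · exact ⟨List.replicate k (.mv p true), by simp [key, col], by simp⟩
    · exact ⟨List.replicate k (.mv p false), by simp [key, col], by simp⟩

lemma upper : ∀ (sv : List (J × J × ℤ)) (i : ℕ), i + 2 * sv.length ≤ R →
    (walk R (wsv sv) i).f = 1 ∧ (walk R (wsv sv) i).φ = 1 ∧
    ∃ L : List (Let R), val L = base (Phi sv) * walk R (wsv sv) i ∧
      (L.length : ℤ) ≤ 2 * sv.length + cost sv := by
  intro sv
  induction sv with
  | nil => intro i _; exact ⟨rfl, rfl, [], by simp [Phi, wsv, walk], by simp [cost]⟩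
  | cons s sv ih =>
    intro i hi
    obtain ⟨j, q, m⟩ := s
    simp only [List.length_cons] at hi
    obtain ⟨a1, a2, L, a3, a4⟩ := ih (i + 2) (by omega)
    have h1 : i < R := by omega
    have h2 : i + 1 < R := by omega
    have e : walk R (wsv ((j, q, m) :: sv)) i = ev (.sw ⟨i, h1⟩ (j, q)) *
        (ev (.sw ⟨i + 1, h2⟩ (j, q)) * walk R (wsv sv) (i + 2)) := by
      simp [wsv, walk, sg, h1, h2]
    obtain ⟨L₁, b1, b2⟩ := move_word (R := R) q m
    refine ⟨by rw [e]; simp [ev, a1], by rw [e]; funext j'; simp [ev, a2],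
      .sw ⟨i, h1⟩ (j, q) :: (L₁ ++ .sw ⟨i + 1, h2⟩ (j, q) :: L), ?_, ?_⟩
    · rw [e]
      simp only [val_cons, val_append, b1, a3]
      refine ext' (fun j' => ?_) (by simp [ev]) (by simp [ev])
      have : (Pi.mulSingle q (col q ^ m) : J → Hs) (swap j q j') =
          (Pi.mulSingle j (col q ^ m) : J → Hs) j' := by
        by_cases hj : j' = j
        · subst hj; simp
        · rw [Pi.mulSingle_eq_of_ne hj, Pi.mulSingle_eq_of_ne]
          intro hh
          apply hj
          rw [swap_apply_eq_iff] at hh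
          simpa using hh
      simp [ev, Phi, this, a2]
    · simp only [List.length_cons, List.length_append, cost, List.map_cons, List.sum_cons] at a4 ⊢
      push_cast
      linarith

lemma services (d : J) : ∀ (π : List Hs) (g : Hs) (ℓ : ℤ), (∀ p ∈ π, p = 1 ∨ P p) → PW π g ℓ →
    ∃ sv : List (J × J × ℤ), sv.length = π.length ∧ (∀ s ∈ sv, s.1 = d) ∧
      Phi sv = Pi.mulSingle d g ∧ cost sv ≤ ℓ ∧ (∀ s ∈ sv, s.2.1 = d ∨ s.2.1 ≠ none) ∧
      (d = none → sv.map (fun s => col s.2.1) = π) := by
  intro π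
  induction π with
  | nil =>
    rintro g ℓ - ⟨rfl, h⟩
    exact ⟨[], rfl, by simp, by simp [Phi], by simpa [cost] using h, by simp, by simp⟩
  | cons p π ih =>
    rintro g ℓ hπ ⟨m, g', rfl, h⟩
    obtain ⟨sv, a1, a2, a3, a4, a5, a6⟩ := ih g' _ (fun q hq => hπ q (List.mem_cons_of_mem _ hq)) h
    rcases hπ p (by simp) with rfl | hp
    · refine ⟨(d, d, 0) :: sv, by simp [a1], by simpa using a2, ?_, ?_, by simpa using a5, ?_⟩
      · simpa [Phi] using a3
      · have := abs_nonneg m
        simp only [cost, List.map_cons, List.sum_cons, abs_zero] at a4 ⊢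
        linarith
      · rintro rfl
        rw [List.map_cons, a6 rfl]
        rfl
    · refine ⟨(d, some ⟨p, hp⟩, m) :: sv, by simp [a1], by simpa using a2, ?_, ?_,
        by simpa using a5, ?_⟩
      · rw [Pi.mulSingle_mul, ← a3]; simp [Phi, col]
      · simp only [cost, List.map_cons, List.sum_cons] at a4 ⊢
        linarith
      · rintro rfl
        rw [List.map_cons, a6 rfl]
        rfl

lemma cs_rest : ∀ (sv : List (J × J × ℤ)), (∀ s ∈ sv, s.1 ≠ none ∧ s.2.1 ≠ none) →
    ∀ g n, PW (cs none (wsv sv)) g n → PW [] g n := by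
  intro sv
  induction sv with
  | nil => intro _ g n h; exact PW.drop_one h
  | cons s sv ih =>
    intro hs g n h
    obtain ⟨c1, c2⟩ := hs s (by simp)
    have e : swap s.1 s.2.1 none = none := swap_apply_of_ne_of_ne c1.symm c2.symm
    have e2 : cs none (wsv (s :: sv)) = 1 :: 1 :: cs none (wsv sv) := by
      simp [wsv, cs, e, col]
    rw [e2] at h
    exact ih (fun s' hs' => hs s' (List.mem_cons_of_mem _ hs')) g n h.drop_one.drop_one

lemma cs_first (rest : List (J × J × ℤ)) (hr : ∀ s ∈ rest, s.1 ≠ none ∧ s.2.1 ≠ none) :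
    ∀ (sv : List (J × J × ℤ)), (∀ s ∈ sv, s.1 = none) →
    ∀ g n, PW (cs none (wsv (sv ++ rest))) g n → PW (sv.map fun s => col s.2.1) g n := by
  intro sv
  induction sv with
  | nil => intro _ g n h; exact cs_rest rest hr g n h
  | cons s sv ih =>
    intro hs g n h
    have c1 := hs s (by simp)
    have e2 : cs none (wsv (s :: sv ++ rest)) = 1 :: col s.2.1 :: cs none (wsv (sv ++ rest)) := by
      simp [wsv, cs, c1, col]
    rw [e2] at h
    obtain ⟨m, g', h1, h2⟩ := h.drop_one
    exact ⟨m, g', h1, ih (fun s' hs' => hs s' (List.mem_cons_of_mem _ hs')) g' _ h2⟩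

lemma Phi_append (a b : List (J × J × ℤ)) : Phi (a ++ b) = Phi a * Phi b := by simp [Phi]
lemma cost_append (a b : List (J × J × ℤ)) : cost (a ++ b) = cost a + cost b := by simp [cost]

lemma flat (g : J → Hs) (ℓ : J → ℤ) (sv : J → List (J × J × ℤ))
    (h1 : ∀ j, Phi (sv j) = Pi.mulSingle j (g j)) (h2 : ∀ j, cost (sv j) ≤ ℓ j)
    (h3 : ∀ j, (sv j).length = 8) :
    ∀ l : List J, l.Nodup → (∀ j, Phi (l.flatMap sv) j = if j ∈ l then g j else 1) ∧
      cost (l.flatMap sv) ≤ (l.map ℓ).sum ∧ (l.flatMap sv).length = 8 * l.length := by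
  intro l
  induction l with
  | nil => intro _; simp [Phi, cost]
  | cons i l ih =>
    intro hl
    obtain ⟨hi, hl'⟩ := List.nodup_cons.1 hl
    obtain ⟨a1, a2, a3⟩ := ih hl'
    refine ⟨fun j => ?_, ?_, ?_⟩
    · rw [List.flatMap_cons, Phi_append, Pi.mul_apply, h1, a1]
      by_cases hj : j = i
      · subst hj; simp [hi]
      · simp [hj]
    · rw [List.flatMap_cons, cost_append]
      have := h2 i
      simp only [List.map_cons, List.sum_cons]
      linarith
    · rw [List.flatMap_cons, List.length_append, h3, a3, List.length_cons]; ring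

/-- the length of the forced walk -/
noncomputable def RR : ℕ := 16 * (Fintype.card PP + 1)

theorem main_ineq (g : J → Hs) (π : J → List Hs) (ℓ : J → ℤ) (g' : Hs)
    (h1 : ∀ j, (π j).length = 8) (h2 : ∀ j, ∀ p ∈ π j, p = 1 ∨ P p)
    (h3 : ∀ j, PW (π j) (g j) (ℓ j)) (h4 : ∀ j, LBP (g j) (ℓ j)) (h5 : LBP g' (ℓ none))
    (h6 : ¬ PW (π none) g' (ℓ none)) :
    ∃ W : Gam RR, W.f = 1 ∧ W.φ = 1 ∧
      (∃ L, val L = base g * W ∧ (L.length : ℤ) ≤ RR + ∑ j, ℓ j) ∧
      ∀ L, val L = base (Function.update g none g') * W → RR + ∑ j, ℓ j + 1 ≤ (L.length : ℤ) := by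
  choose sv a1 a2 a3 a4 a5 a6 using fun j => services j (π j) (g j) (ℓ j) (h2 j) (h3 j)
  let l₀ : List J := (Finset.univ : Finset PP).toList.map some
  have hnd : (none :: l₀).Nodup := by
    refine List.nodup_cons.2 ⟨by simp [l₀], ?_⟩
    exact (Finset.nodup_toList _).map (Option.some_injective _)
  have hall : ∀ j, j ∈ none :: l₀ := by
    rintro (_ | p) <;> simp [l₀]
  obtain ⟨b1, b2, b3⟩ := flat g ℓ sv a3 a4 (fun j => (a1 j).trans (h1 j)) _ hnd
  obtain ⟨SV, hSV⟩ : ∃ SV, SV = (none :: l₀).flatMap sv := ⟨_, rfl⟩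
  rw [← hSV] at b1 b2 b3
  have hΦ : Phi SV = g := funext fun j => by rw [b1, if_pos (hall j)]
  have hsum : ((none :: l₀).map ℓ).sum = ∑ j, ℓ j := by
    rw [← List.sum_toFinset ℓ hnd]
    congr 1
    ext j; simp only [List.mem_toFinset, hall, Finset.mem_univ]
  have hlen : 2 * SV.length = RR := by
    rw [b3]; simp [l₀, RR]; ring
  have hwl : (wsv SV).length = RR := by
    rw [← hlen]
    simp [wsv, List.length_flatMap, mul_comm]
  obtain ⟨c1, c2, L, c3, c4⟩ := upper (R := RR) SV 0 (by omega)
  refine ⟨walk RR (wsv SV) 0, c1, c2, ⟨L, by rw [c3, hΦ], ?_⟩, fun L' hL' => ?_⟩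
  · have : (2 * SV.length : ℤ) = RR := by exact_mod_cast hlen
    linarith
  · obtain ⟨w, hw⟩ : ∃ w : Fin RR → T, List.ofFn w = wsv SV :=
      ⟨fun k => (wsv SV)[k.1]'(by rw [hwl]; exact k.2), by
        apply List.ext_getElem (by simp [hwl])
        intro k _ _
        simp⟩
    obtain ⟨n, d1, d2, d3⟩ := lower L'
    have hω := walk_ω w RR 0 (by omega)
    rw [List.drop_zero, hw] at hω
    obtain ⟨d4, d5⟩ := d3 w ⟨0, by omega⟩ (by rw [hL']; simpa using hω)
    have hφ : ∀ j, (val L').φ j = Function.update g none g' j := by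
      intro j; rw [hL']; simp [c2]
    have hn : ∀ j, ℓ j ≤ n j := by
      intro j
      obtain ⟨l, e1, e2, e3⟩ := d2 j
      rw [← e3]
      rcases j with _ | p
      · exact h5 l e1 (by rw [e2, hφ]; simp)
      · exact h4 _ l e1 (by rw [e2, hφ]; simp)
    have d1' : ∑ j, (n j : ℤ) + swc L' = L'.length := by exact_mod_cast d1
    simp only [add_zero] at d4 d5
    rcases d4.lt_or_eq with c | c
    · have : ∑ j, ℓ j ≤ ∑ j, (n j : ℤ) := Finset.sum_le_sum fun j _ => hn j
      have c' : (RR : ℤ) + 1 ≤ swc L' := by exact_mod_cast c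
      linarith
    · have e1 := d5 c none
      rw [List.drop_zero, hw, hφ, hSV, List.flatMap_cons] at e1
      have e2 := cs_first (l₀.flatMap sv) (by
        intro s hs
        obtain ⟨j, hj, hs⟩ := List.mem_flatMap.1 hs
        have hj' : j ≠ none := by rintro rfl; simp [l₀] at hj
        refine ⟨by rw [a2 j s hs]; exact hj', ?_⟩
        rcases a5 j s hs with h | h
        · rw [h]; exact hj'
        · exact h) (sv none) (a2 none) _ _ e1
      rw [a6 none rfl, Function.update_self] at e2
      have e3 : ℓ none < n none := by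
        by_contra hh
        exact h6 (e2.mono (not_lt.1 hh))
      have : ∑ j, ℓ j < ∑ j, (n j : ℤ) :=
        Finset.sum_lt_sum (fun j _ => hn j) ⟨none, Finset.mem_univ _, e3⟩
      have c' : (RR : ℤ) = swc L' := by exact_mod_cast c
      linarith

end Pool.Agent.Lib.MP_3614fc_al
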