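import Mathlib
import Pool.Agent.Lib.MP_3614fc_al.Key
import Pool.Agent.Lib.MP_3614fc_al.Wreath

namespace Pool.Agent.Lib.MP_3614fc_al

open Hs Equiv Gam Filter Topology

/-- the counterexample group -/
abbrev GG : Type := ↥(Subgroup.closure (Set.range (ev : Let RR → Gam RR)))

lemma SS_finite : ((Subgroup.closure (Set.range (ev : Let RR → Gam RR))).subtype ⁻¹'
    Set.range (ev : Let RR → Gam RR)).Finite :=
  (Set.finite_range _).preimage (Subgroup.subtype_injective _).injOn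

/-- its generating set -/
noncomputable def SS : Finset GG := SS_finite.toFinset

lemma mem_SS (s : GG) : s ∈ SS ↔ ∃ a, ev a = s.1 := by
  simp [SS]

lemma SS_inv (s : GG) (h : s ∈ SS) : s⁻¹ ∈ SS := by
  obtain ⟨a, ha⟩ := (mem_SS s).1 h
  exact (mem_SS _).2 ⟨linv a, by rw [ev_linv, ha]; rfl⟩

lemma SS_top : Subgroup.closure (SS : Set GG) = ⊤ := by
  rw [SS, Set.Finite.coe_toFinset]
  exact Subgroup.closure_preimage_eq_top _

lemma val_mem (L : List (Let RR)) :
    val L ∈ Subgroup.closure (Set.range (ev : Let RR → Gam RR)) := by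
  induction L with
  | nil => exact one_mem _
  | cons a L ih => rw [val_cons]; exact mul_mem (Subgroup.subset_closure ⟨a, rfl⟩) ih

lemma exists_word (g : GG) : ∃ L, val L = g.1 := by
  obtain ⟨g, hg⟩ := g
  induction hg using Subgroup.closure_induction with
  | mem x hx => obtain ⟨a, rfl⟩ := hx; exact ⟨[a], by simp⟩
  | one => exact ⟨[], rfl⟩
  | mul x y _ _ hx hy =>
    obtain ⟨L, h⟩ := hx
    obtain ⟨L', h'⟩ := hy
    exact ⟨L ++ L', by simp only at h h'; simp [h, h']⟩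
  | inv x _ hx =>
    obtain ⟨L, h⟩ := hx
    exact ⟨(L.map linv).reverse, by simp only at h; rw [val_inv, h]⟩

/-- the word length -/
noncomputable def len (g : GG) : ℕ :=
  sInf {m : ℕ | ∃ l : List GG, l.length = m ∧ (∀ s ∈ l, s ∈ SS) ∧ l.prod = g}

lemma word_mem (g : GG) (L : List (Let RR)) (h : val L = g.1) :
    L.length ∈ {m : ℕ | ∃ l : List GG, l.length = m ∧ (∀ s ∈ l, s ∈ SS) ∧ l.prod = g} := by
  refine ⟨L.map fun a => ⟨ev a, Subgroup.subset_closure ⟨a, rfl⟩⟩, by simp, ?_, ?_⟩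
  · intro s hs
    obtain ⟨a, -, rfl⟩ := List.mem_map.1 hs
    exact (mem_SS _).2 ⟨a, rfl⟩
  · apply Subtype.ext
    rw [← h, SubmonoidClass.coe_list_prod, List.map_map]
    rfl

lemma len_le (g : GG) (L : List (Let RR)) (h : val L = g.1) : len g ≤ L.length :=
  Nat.sInf_le (word_mem g L h)

lemma len_ex (g : GG) : ∃ L : List (Let RR), val L = g.1 ∧ L.length = len g := by
  obtain ⟨L₀, h₀⟩ := exists_word g
  obtain ⟨l, h1, h2, h3⟩ := Nat.sInf_mem ⟨_, word_mem g L₀ h₀⟩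
  have key : ∀ l : List GG, (∀ s ∈ l, s ∈ SS) →
      ∃ L : List (Let RR), val L = l.prod.1 ∧ L.length = l.length := by
    intro l
    induction l with
    | nil => intro _; exact ⟨[], rfl, rfl⟩
    | cons s l ih =>
      intro hl
      obtain ⟨L, a1, a2⟩ := ih (fun s' hs' => hl s' (List.mem_cons_of_mem _ hs'))
      obtain ⟨a, ha⟩ := (mem_SS s).1 (hl s (by simp))
      exact ⟨a :: L, by simp [a1, ha], by simp [a2]⟩
  obtain ⟨L, a1, a2⟩ := key l h2
  exact ⟨L, by rw [a1, h3], by rw [a2, h1]; rfl⟩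

lemma single_mem (i : J) (p : PP) :
    (base (Pi.mulSingle i p.1) : Gam RR) ∈
      Subgroup.closure (Set.range (ev : Let RR → Gam RR)) := by
  have h0 : 0 < RR := by unfold RR; positivity
  convert val_mem [.sw ⟨0, h0⟩ (i, some p), .mv p true, .sw ⟨0, h0⟩ (i, some p)] using 1
  refine ext' (fun j => ?_) (by simp [ev]) (by simp [ev, rho_mul_self])
  by_cases hj : j = i
  · subst hj; simp [ev]
  · have : swap i (some p) j ≠ some p := by
      intro hh
      apply hj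
      rw [swap_apply_eq_iff] at hh
      simpa using hh
    simp [ev, hj, this]

/-- first short generator -/
def pu : PP := ⟨⟨1, 0, 0⟩, by simp [P]⟩
/-- second short generator -/
def pv : PP := ⟨⟨0, 1, 0⟩, by simp [P]⟩

/-- the short generators in coordinate `i` -/
noncomputable def gen (i : J) (p : PP) : GG := ⟨_, single_mem i p⟩

lemma gen_zpow (i : J) (p : PP) (m : ℤ) :
    (gen i p ^ m).1 = base (Pi.mulSingle i (p.1 ^ m)) := by
  rw [Pi.mulSingle_zpow, map_zpow]; rfl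

lemma comm_eq (i : J) (m n : ℤ) :
    (gen i pu ^ m * gen i pv ^ n * (gen i pu ^ m)⁻¹ * (gen i pv ^ n)⁻¹).1 =
      base (Pi.mulSingle i (cz (m * n))) := by
  simp only [Subgroup.coe_mul, Subgroup.coe_inv, gen_zpow, ← map_inv, ← map_mul,
    ← Pi.mulSingle_inv, ← Pi.mulSingle_mul]
  congr 2
  rw [zpow_straight _ (by simp [pu]), zpow_straight _ (by simp [pv])]
  ext <;> simp [pu, pv, cz]

instance : Infinite GG := by
  refine Infinite.of_injective (fun m : ℤ => gen none pu ^ m) fun m n h => ?_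
  have h1 := congrArg (fun g : GG => (g.1.φ none).x) h
  simp only [gen_zpow, base_φ, Pi.mulSingle_eq_same] at h1
  rw [zpow_straight _ (by simp [pu]), zpow_straight _ (by simp [pu])] at h1
  simpa [pu] using h1

/-- the finite quotient -/
def quo : GG →* Perm J × Perm (Om RR) where
  toFun g := (g.1.f, g.1.ω)
  map_one' := rfl
  map_mul' _ _ := rfl

lemma virt_nilp : ∃ H : Subgroup GG, H.FiniteIndex ∧ Group.IsNilpotent ↥H := by
  refine ⟨quo.ker, inferInstance, ?_⟩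
  have hf : ∀ g : quo.ker, g.1.1.f = 1 := fun g => congrArg Prod.fst g.2
  have hω : ∀ g : quo.ker, g.1.1.ω = 1 := fun g => congrArg Prod.snd g.2
  let ψ : quo.ker →* (J → Hs) :=
    { toFun := fun g => g.1.1.φ
      map_one' := rfl
      map_mul' := fun a b => by
        funext j
        simp [hf a] }
  refine Subgroup.isNilpotent_of_ker_le_center ψ ?_
  intro g hg
  have : g = 1 := by
    apply Subtype.ext
    apply Subtype.ext
    exact Gam.ext hg (hf g) (hω g)
  rw [this]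
  exact one_mem _

section Fix

variable {G : Type} [Group G] (f : G → ℝ)

/-- `h` changes `f` by an additive constant -/
def Fix (h : G) : Prop := ∃ c, ∀ y, f (h * y) = f y + c

variable {f}

lemma Fix.inv {h : G} (a : Fix f h) : Fix f h⁻¹ := by
  obtain ⟨c, hc⟩ := a
  exact ⟨-c, fun y => by have := hc (h⁻¹ * y); rw [mul_inv_cancel_left] at this; linarith⟩

lemma Fix.mul {g h : G} (a : Fix f g) (b : Fix f h) : Fix f (g * h) := by
  obtain ⟨c, hc⟩ := a
  obtain ⟨d, hd⟩ := b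
  exact ⟨c + d, fun y => by rw [mul_assoc, hc, hd]; ring⟩

lemma Fix.zpow {h : G} (a : Fix f h) (m : ℤ) : Fix f (h ^ m) := by
  induction m using Int.induction_on with
  | zero => exact ⟨0, by simp⟩
  | succ n ih => rw [zpow_add_one]; exact ih.mul a
  | pred n ih => rw [zpow_sub_one]; exact ih.mul a.inv

lemma Fix.comm {g h : G} (a : Fix f g) (b : Fix f h) (y : G) :
    f (g * h * g⁻¹ * h⁻¹ * y) = f y := by
  obtain ⟨c, hc⟩ := a
  obtain ⟨d, hd⟩ := b
  have h1 := hc (g⁻¹ * (h⁻¹ * y))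
  have h2 := hd (h⁻¹ * y)
  rw [mul_inv_cancel_left] at h1 h2
  simp only [mul_assoc]
  rw [hc, hd]
  linarith

lemma exists_fix (hf : (Set.range (fun g : G => fun y : G => f (g⁻¹ * y) - f g⁻¹)).Finite)
    (g : G) : ∃ m : ℕ, 0 < m ∧ Fix f (g ^ (m : ℤ)) := by
  have : Finite (Set.range (fun g : G => fun y : G => f (g⁻¹ * y) - f g⁻¹)) := hf.to_subtype
  obtain ⟨k, l, hkl, h⟩ := Finite.exists_ne_map_eq_of_infinite
    (fun k : ℕ => (⟨_, g ^ (k : ℤ), rfl⟩ :
      Set.range (fun g : G => fun y : G => f (g⁻¹ * y) - f g⁻¹)))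
  have h' : ∀ y, f ((g ^ (k : ℤ))⁻¹ * y) - f (g ^ (k : ℤ))⁻¹ =
      f ((g ^ (l : ℤ))⁻¹ * y) - f (g ^ (l : ℤ))⁻¹ := fun y => congrFun (congrArg Subtype.val h) y
  have key : Fix f (g ^ ((l : ℤ) - k)) := by
    refine ⟨f (g ^ (k : ℤ))⁻¹ - f (g ^ (l : ℤ))⁻¹, fun y => ?_⟩
    have := h' (g ^ (l : ℤ) * y)
    rw [inv_mul_cancel_left, ← mul_assoc, ← zpow_neg, ← zpow_add,
      show -(k : ℤ) + l = l - k by ring] at this
    rw [← zpow_neg]
    linarith
  rcases lt_or_gt_of_ne hkl with c | c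
  · exact ⟨l - k, by omega, by rw [Nat.cast_sub c.le]; exact key⟩
  · refine ⟨k - l, by omega, ?_⟩
    rw [Nat.cast_sub c.le, show (k : ℤ) - l = -(l - k) by ring, zpow_neg]
    exact key.inv

end Fix

lemma step (M C : ℤ) (E : Set Hs) (hE : ∀ ξ, ∃ η ∈ E, Zs M C (η * ξ)) (x : GG) :
    ∃ y : GG, (∀ j, (y.1.φ j)⁻¹ ∈ E) ∧ ∃ (i : J) (δ : ℤ), M ∣ δ ∧ |δ| ≤ C ∧
      ∀ h : GG, h.1 = base (Pi.mulSingle i (cz δ)) →
        len (x⁻¹ * y) + 1 ≤ len (x⁻¹ * (h * y)) := by
  choose η hη hZ using fun j => hE (x.1.φ j)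
  choose δ a1 a2 π a3 a4 ℓ a5 a6 a7 a8 using fun j => hZ (x.1.f j)
  obtain ⟨W, w1, w2, ⟨L, w3, w4⟩, w5⟩ := main_ineq (fun j => η (x.1.f j) * x.1.φ (x.1.f j)) π ℓ _
    a3 a4 a5 a6 (a7 none) (a8 none)
  let u : GG := ⟨val L, val_mem L⟩
  refine ⟨x * u⁻¹, fun j => ?_, x.1.f none, -δ none, (a1 none).neg_right, by simpa using a2 none,
    fun h hh => ?_⟩
  · simpa [u, w3, w1, w2] using hη j
  · have e1 : len (x⁻¹ * (x * u⁻¹)) ≤ L.length := by
      have := len_le (x⁻¹ * (x * u⁻¹)) (L.map linv).reverse (by rw [val_inv]; simp [u])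
      simpa using this
    obtain ⟨L', b1, b2⟩ := len_ex (x⁻¹ * (h * (x * u⁻¹)))
    have e2 := w5 (L'.map linv).reverse (by
      rw [val_inv, b1]
      simp only [Subgroup.coe_mul, Subgroup.coe_inv, hh, u, w3]
      refine ext' (fun j => ?_) (by simp) (by simp)
      by_cases hj : j = none
      · subst hj
        ext <;> simp [w1, w2, cz] <;> ring
      · have : x.1.f j ≠ x.1.f none := fun hh => hj (x.1.f.injective hh)
        simp [w1, w2, hj, this])
    simp only [List.length_reverse, List.length_map] at e2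
    omega

theorem no_finite_orbit (f : GG → ℝ) (x : ℕ → GG)
    (hx : ∀ y, Tendsto (fun n => (len ((x n)⁻¹ * y) : ℝ) - (len (x n)⁻¹ : ℝ)) atTop (𝓝 (f y)))
    (hf : (Set.range (fun g : GG => fun y : GG => f (g⁻¹ * y) - f g⁻¹)).Finite) : False := by
  choose m₁ p₁ f₁ using fun i => exists_fix hf (gen i pu)
  choose m₂ p₂ f₂ using fun i => exists_fix hf (gen i pv)
  obtain ⟨C, E, hE, hK⟩ := key (∏ i, m₁ i * m₂ i)
    (Finset.prod_pos fun i _ => Nat.mul_pos (p₁ i) (p₂ i))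
  set M : ℤ := ((∏ i, m₁ i * m₂ i : ℕ) : ℤ) with hM
  have hinv : ∀ (i : J) (δ : ℤ), M ∣ δ → ∃ h : GG, h.1 = base (Pi.mulSingle i (cz δ)) ∧
      ∀ y, f (h * y) = f y := by
    intro i δ hδ
    have h1 : ((m₁ i * m₂ i : ℕ) : ℤ) ∣ M :=
      Int.natCast_dvd_natCast.2 (Finset.dvd_prod_of_mem _ (Finset.mem_univ i))
    obtain ⟨k, hk⟩ := h1.trans hδ
    refine ⟨_, ?_, ((f₁ i).comm ((f₂ i).zpow k))⟩
    rw [← zpow_mul, comm_eq, hk]
    push_cast
    rw [mul_assoc]
  choose hh hh1 hh2 using hinv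
  let Y : Set GG := {y | ∀ j, (y.1.φ j)⁻¹ ∈ E}
  have hY : Y.Finite := by
    have h1 : ((Set.univ.pi fun _ : J => E⁻¹) ×ˢ
        (Set.univ : Set (Perm J × Perm (Om RR)))).Finite :=
      (Set.Finite.pi' fun _ => hE.inv).prod Set.finite_univ |>.subset (by
        rintro ⟨a, b⟩ ⟨h, -⟩
        exact ⟨fun j => h j trivial, trivial⟩)
    refine (h1.preimage (f := fun y : GG => (y.1.φ, y.1.f, y.1.ω)) ?_).subset ?_
    · intro a _ b _ h
      simp only [Prod.mk.injEq] at h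
      exact Subtype.ext (Gam.ext h.1 h.2.1 h.2.2)
    · intro y hy
      exact ⟨fun j _ => hy j, trivial⟩
  let D : Set ℤ := Set.Icc (-C) C
  have ev1 : ∀ᶠ n in atTop, ∀ y ∈ Y, ∀ i : J, ∀ δ ∈ D, ∀ hδ : M ∣ δ,
      (len ((x n)⁻¹ * (hh i δ hδ * y)) : ℝ) - len ((x n)⁻¹ * y) < 1 := by
    rw [eventually_all_finite hY]
    intro y _
    rw [eventually_all]
    intro i
    rw [eventually_all_finite (Set.finite_Icc _ _)]
    intro δ _
    rw [eventually_all]
    intro hδ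
    have := (hx (hh i δ hδ * y)).sub (hx y)
    rw [hh2, sub_self] at this
    filter_upwards [this.eventually (gt_mem_nhds zero_lt_one)] with n hn
    linarith
  obtain ⟨n, hn⟩ := ev1.exists
  obtain ⟨y, a1, i, δ, a2, a3, a4⟩ := step M C E hK (x n)
  have b1 := hn y a1 i δ (abs_le.1 a3) a2
  have b2 : (len ((x n)⁻¹ * y) : ℝ) + 1 ≤ len ((x n)⁻¹ * (hh i δ a2 * y)) := by
    exact_mod_cast a4 _ (hh1 i δ a2)
  linarith

end Pool.Agent.Lib.MP_3614fc_al
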