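import Pool.Agent.Lib.MP_3614fc_al.Final

namespace Pool.Agent.Lib.MP_3614fc_al

open Filter Topology SimpleGraph
open scoped commutatorElement

section Cay
variable {G : Type*} [Group G] (S : Set G)

lemma walk_list (hS : ∀ s ∈ S, s⁻¹ ∈ S) {x y : G} (w : (mulCayley S).Walk x y) :
    ∃ l : List G, l.length = w.length ∧ (∀ s ∈ l, s ∈ S) ∧ l.prod = x⁻¹ * y := by
  induction w with
  | nil => exact ⟨[], rfl, by simp, by simp⟩
  | @cons u v t h w ih =>
    obtain ⟨l, h1, h2, h3⟩ := ih
    refine ⟨(u⁻¹ * v) :: l, by simp [h1], ?_, by simp [h3, mul_assoc]⟩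
    intro s hs
    rcases List.mem_cons.1 hs with rfl | hs
    · rcases ((mulCayley_adj S u v).1 h).2 with h | h
      · exact h
      · simpa using hS _ h
    · exact h2 s hs

lemma list_walk (l : List G) (hl : ∀ s ∈ l, s ∈ S) (x : G) :
    ∃ w : (mulCayley S).Walk x (x * l.prod), w.length ≤ l.length := by
  induction l generalizing x with
  | nil => exact ⟨Walk.nil.copy rfl (by simp), by simp⟩
  | cons s l ih =>
    obtain ⟨w, hw⟩ := ih (fun t ht => hl t (List.mem_cons_of_mem _ ht)) (x * s)
    by_cases h : x = x * s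
    · refine ⟨w.copy h.symm (by simp [mul_assoc]), ?_⟩
      simp only [Walk.length_copy, List.length_cons]; omega
    · have ha : (mulCayley S).Adj x (x * s) :=
        (mulCayley_adj S _ _).2 ⟨h, Or.inl (by simpa using hl s List.mem_cons_self)⟩
      refine ⟨(Walk.cons ha w).copy rfl (by simp [mul_assoc]), ?_⟩
      simp only [Walk.length_copy, Walk.length_cons, List.length_cons]; omega

end Cay

lemma len_mem (g : GG) : ∃ l : List GG, l.length = len g ∧ (∀ s ∈ l, s ∈ SS) ∧ l.prod = g := by
  obtain ⟨L, hL⟩ := exists_word g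
  exact Nat.sInf_mem (s := {m : ℕ | ∃ l : List GG, l.length = m ∧ (∀ s ∈ l, s ∈ SS) ∧ l.prod = g})
    ⟨_, word_mem g L hL⟩

lemma dist_eq (x y : GG) : (mulCayley (SS : Set GG)).dist x y = len (x⁻¹ * y) := by
  obtain ⟨l, h1, h2, h3⟩ := len_mem (x⁻¹ * y)
  obtain ⟨w, hw⟩ := list_walk (SS : Set GG) l h2 x
  have e : x * l.prod = y := by rw [h3]; simp
  have hle : (mulCayley (SS : Set GG)).dist x y ≤ len (x⁻¹ * y) := by
    have := dist_le (w.copy rfl e)
    simp only [Walk.length_copy] at this
    omega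
  refine le_antisymm hle ?_
  obtain ⟨v, hv⟩ := (w.copy rfl e).reachable.exists_walk_length_eq_dist
  obtain ⟨l', g1, g2, g3⟩ := walk_list (SS : Set GG) (fun s hs => SS_inv s hs) v
  rw [← hv, ← g1]
  exact Nat.sInf_le ⟨l', rfl, g2, g3⟩

instance : Countable GG := by
  have : Countable (List (Let RR)) := inferInstance
  refine Function.Surjective.countable
    (f := fun L : List (Let RR) => (⟨val L, val_mem L⟩ : GG)) fun g => ?_
  obtain ⟨L, hL⟩ := exists_word g
  exact ⟨L, Subtype.ext hL⟩

lemma hs_comm (a b c : Hs) : ⁅⁅a, b⁆, c⁆ = 1 := by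
  simp only [commutatorElement_def]
  ext <;> simp <;> ring

lemma ker_two : Subgroup.upperCentralSeries quo.ker 2 = ⊤ := by
  have hf : ∀ g : quo.ker, g.1.1.f = 1 := fun g => congrArg Prod.fst g.2
  have hω : ∀ g : quo.ker, g.1.1.ω = 1 := fun g => congrArg Prod.snd g.2
  let ψ : quo.ker →* (J → Hs) :=
    { toFun := fun g => g.1.1.φ
      map_one' := rfl
      map_mul' := fun a b => by
        funext j
        simp [hf a] }
  have hψ : Function.Injective ψ := by
    rw [injective_iff_map_eq_one]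
    intro g hg
    exact Subtype.ext (Subtype.ext (Gam.ext hg (hf g) (hω g)))
  rw [eq_top_iff]
  intro a _
  rw [Subgroup.mem_upperCentralSeries_succ_iff]
  intro b
  rw [Subgroup.mem_upperCentralSeries_succ_iff]
  intro c
  rw [Subgroup.upperCentralSeries_zero, Subgroup.mem_bot]
  apply hψ
  rw [map_commutatorElement, map_commutatorElement, map_one]
  funext j
  exact hs_comm (ψ a j) (ψ b j) (ψ c j)

theorem hedge (f : GG → ℝ)
    (hf : f ∈ closure (Set.range fun x y : GG =>
      ((mulCayley (SS : Set GG)).dist x y : ℝ) - (mulCayley (SS : Set GG)).dist x 1)) :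
    (Set.range fun g y : GG => f (g⁻¹ * y) - f g⁻¹).Infinite := by
  intro hfin
  obtain ⟨u, hu, hlim⟩ := mem_closure_iff_seq_limit.1 hf
  choose x hx using hu
  refine no_finite_orbit f x (fun y => ?_) hfin
  have := tendsto_pi_nhds.1 hlim y
  refine this.congr fun n => ?_
  rw [← hx n]
  simp only [dist_eq, mul_one]

end Pool.Agent.Lib.MP_3614fc_al
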